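import Pool.Agent.Lib.Sieve.Shifted

-- part Pool.Agent.P.MP_0993da_nt.Per
section

/-!
Periodic sums, monotone weights, and the local mean zero function of a residue class.
-/

namespace Pool.Agent.P.MP_0993da_nt

open Finset Real Pool.Agent.Lib.Sieve

theorem abel_mono (g : ℕ → ℝ) {B : ℝ} (t : ℕ) (hg : ∀ s, |∑ n ∈ Ico s t, g n| ≤ B) :
    ∀ (k s : ℕ) (φ : ℕ → ℝ), s + k = t → 0 ≤ φ s → (∀ n, s ≤ n → φ n ≤ φ (n + 1)) →
      |∑ n ∈ Ico s t, φ n * g n| ≤ B * φ t := by
  have hB : 0 ≤ B := (abs_nonneg _).trans (hg 0)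
  intro k
  induction k with
  | zero =>
    intro s φ h h0 _
    obtain rfl : s = t := by omega
    simpa using mul_nonneg hB h0
  | succ k ih =>
    intro s φ h h0 hm
    have h1 := ih (s + 1) (fun n => φ n - φ s) (by omega) (by linarith [hm s le_rfl])
      (fun n hn => by linarith [hm n (by omega)])
    have h2 : ∑ n ∈ Ico s t, φ n * g n =
        φ s * ∑ n ∈ Ico s t, g n + ∑ n ∈ Ico (s + 1) t, (φ n - φ s) * g n := by
      have h3 : ∑ n ∈ Ico s t, (φ n - φ s) * g n = ∑ n ∈ Ico (s + 1) t, (φ n - φ s) * g n := by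
        rw [sum_eq_sum_Ico_succ_bot (by omega : s < t)]; simp
      rw [← h3, mul_sum, ← sum_add_distrib]
      exact sum_congr rfl fun n _ => by ring
    rw [h2]
    refine (abs_add_le _ _).trans ?_
    rw [abs_mul, abs_of_nonneg h0]
    have := mul_le_mul_of_nonneg_left (hg s) h0
    nlinarith

theorem abel_Ioc (g : ℕ → ℝ) {B : ℝ} (hg : ∀ s t, |∑ n ∈ Ico s t, g n| ≤ B) (φ : ℕ → ℝ)
    (h0 : ∀ n, 0 ≤ φ n) (hm : ∀ n, 1 ≤ n → φ n ≤ φ (n + 1)) (s t : ℕ) :
    |∑ n ∈ Ioc s t, φ n * g n| ≤ B * φ (t + 1) := by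
  have hB : 0 ≤ B := (abs_nonneg _).trans (hg 0 0)
  by_cases h : s ≤ t
  · have e : Ioc s t = Ico (s + 1) (t + 1) := by ext n; simp only [mem_Ioc, mem_Ico]; omega
    rw [e]
    exact abel_mono g (t + 1) (fun s => hg s _) (t - s) (s + 1) φ (by omega) (h0 _)
      (fun n hn => hm n (by omega))
  · rw [Ioc_eq_empty (by omega)]
    simpa using mul_nonneg hB (h0 _)

theorem per_shift {q : ℕ} (F : ℕ → ℝ) (hF : ∀ n, F n = F (n % q)) (s : ℕ) :
    ∑ n ∈ Ico s (s + q), F n = ∑ n ∈ range q, F n := by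
  induction s with
  | zero => simp
  | succ s ih =>
    rcases Nat.eq_zero_or_pos q with rfl | hq
    · simp
    have h1 : ∑ n ∈ Ico s (s + q + 1), F n = ∑ n ∈ Ico s (s + q), F n + F (s + q) :=
      sum_Ico_succ_top (by omega) _
    have h2 : ∑ n ∈ Ico s (s + q + 1), F n = F s + ∑ n ∈ Ico (s + 1) (s + q + 1), F n :=
      sum_eq_sum_Ico_succ_bot (by omega) _
    have h3 : F (s + q) = F s := by rw [hF (s + q), hF s, Nat.add_mod_right]
    rw [show s + 1 + q = s + q + 1 by ring]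
    linarith

theorem per_zero {q : ℕ} (hq : 0 < q) (F : ℕ → ℝ) (hF : ∀ n, F n = F (n % q))
    (h0 : ∑ n ∈ range q, F n = 0) (s t : ℕ) :
    |∑ n ∈ Ico s t, F n| ≤ ∑ n ∈ range q, |F n| := by
  have key : ∀ k s, t ≤ s + k → |∑ n ∈ Ico s t, F n| ≤ ∑ n ∈ range q, |F n| := by
    intro k
    induction k with
    | zero =>
      intro s h
      rw [Ico_eq_empty (by omega)]
      simpa using sum_nonneg fun n _ => abs_nonneg (F n)
    | succ k ih =>
      intro s h
      by_cases h1 : t ≤ s + q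
      · refine (abs_sum_le_sum_abs _ _).trans ?_
        rw [← per_shift (fun n => |F n|) (fun n => by rw [← hF]) s]
        exact sum_le_sum_of_subset_of_nonneg (Ico_subset_Ico_right h1) fun _ _ _ => abs_nonneg _
      · rw [← sum_Ico_consecutive F (Nat.le_add_right s q) (by omega), per_shift F hF, h0, zero_add]
        exact ih _ (by omega)
  exact key t s (by omega)

theorem per_nonneg {q : ℕ} (hq : 0 < q) (F : ℕ → ℝ) (hF : ∀ n, F n = F (n % q))
    (h0 : ∀ n, 0 ≤ F n) (s t : ℕ) :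
    ∑ n ∈ Ioc s t, F n ≤ ((t : ℝ) / q + 1) * ∑ n ∈ range q, F n := by
  have h1 : Ioc s t ⊆ range (q * (t / q + 1)) := by
    intro n hn
    have := Nat.lt_mul_div_succ t hq
    rw [mem_Ioc] at hn
    rw [mem_range]; omega
  refine (sum_le_sum_of_subset_of_nonneg h1 fun n _ _ => h0 n).trans ?_
  rw [sum_range_mul_periodic F hF]
  refine mul_le_mul_of_nonneg_right ?_ (sum_nonneg fun n _ => h0 n)
  push_cast
  linarith [(Nat.cast_div_le : ((t / q : ℕ) : ℝ) ≤ t / q)]

/-- Indicator of the class `a` modulo `p`. -/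
noncomputable def ind (a : ℤ) (p n : ℕ) : ℝ := if (p : ℤ) ∣ n - a then 1 else 0

/-- Indicator of the class `a` modulo `p`, minus its mean over the units. -/
noncomputable def w (a : ℤ) (p n : ℕ) : ℝ :=
  ind a p n - if p ∣ n then 0 else 1 / ((p : ℝ) - 1)

theorem ind_nonneg (a : ℤ) (p n : ℕ) : 0 ≤ ind a p n := by unfold ind; split_ifs <;> norm_num

theorem ind_le_one (a : ℤ) (p n : ℕ) : ind a p n ≤ 1 := by unfold ind; split_ifs <;> norm_num

theorem ind_congr (a : ℤ) {p n n' : ℕ} (h : n ≡ n' [MOD p]) : ind a p n = ind a p n' := by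
  have h1 : (p : ℤ) ∣ (n' : ℤ) - n := h.dvd
  have : (p : ℤ) ∣ n - a ↔ (p : ℤ) ∣ n' - a := by
    constructor
    · intro h2; have := dvd_add h2 h1; rwa [show (n : ℤ) - a + (n' - n) = n' - a by ring] at this
    · intro h2; have := dvd_sub h2 h1; rwa [show (n' : ℤ) - a - (n' - n) = n - a by ring] at this
  unfold ind
  simp only [this]

theorem w_congr (a : ℤ) {p n n' : ℕ} (h : n ≡ n' [MOD p]) : w a p n = w a p n' := by
  unfold w
  rw [ind_congr a h]
  have : p ∣ n ↔ p ∣ n' := h.dvd_iff dvd_rfl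
  simp only [this]

theorem mod_mul {p q : ℕ} (h : p ∣ q) (d m : ℕ) : d * m ≡ (d % q) * m [MOD p] :=
  (((Nat.mod_modEq d q).of_dvd h).mul_right m).symm

theorem sum_range_zmod {p : ℕ} [NeZero p] (F : ZMod p → ℝ) :
    ∑ d ∈ range p, F (d : ZMod p) = ∑ z : ZMod p, F z := by
  refine sum_nbij' (fun n => (n : ZMod p)) (fun x => x.val) ?_ ?_ ?_ ?_ ?_
  · intro n _; simp
  · intro x _; simp [ZMod.val_lt]
  · intro n hn; exact ZMod.val_cast_of_lt (mem_range.1 hn)
  · intro x _; simp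
  · intro n _; rfl

theorem ind_eq (a : ℤ) (p n : ℕ) :
    ind a p n = if (n : ZMod p) = (a : ZMod p) then 1 else 0 := by
  unfold ind
  have : (p : ℤ) ∣ n - a ↔ (n : ZMod p) = (a : ZMod p) := by
    rw [← ZMod.intCast_zmod_eq_zero_iff_dvd]; push_cast; exact sub_eq_zero
  simp only [this]

theorem sum_ind {a : ℤ} {p : ℕ} (hp : p.Prime) (ha : ¬ (p : ℤ) ∣ a) (m : ℕ) :
    ∑ d ∈ range p, ind a p (d * m) = if p ∣ m then 0 else 1 := by
  have := Fact.mk hp
  have ha' : (a : ZMod p) ≠ 0 := fun h => ha ((ZMod.intCast_zmod_eq_zero_iff_dvd a p).1 h)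
  simp only [ind_eq, Nat.cast_mul]
  rw [sum_range_zmod (fun z : ZMod p => if z * (m : ZMod p) = a then (1 : ℝ) else 0)]
  split_ifs with h
  · have : (m : ZMod p) = 0 := (ZMod.natCast_eq_zero_iff m p).2 h
    simp [this, ha'.symm]
  · have hm : (m : ZMod p) ≠ 0 := fun h' => h ((ZMod.natCast_eq_zero_iff m p).1 h')
    simp only [← eq_div_iff hm]
    simp

theorem sum_w {a : ℤ} {p : ℕ} (hp : p.Prime) (ha : ¬ (p : ℤ) ∣ a) (m : ℕ) :
    ∑ d ∈ range p, w a p (d * m) = 0 := by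
  unfold w
  rw [sum_sub_distrib, sum_ind hp ha]
  have h2 : (2 : ℝ) ≤ p := by exact_mod_cast hp.two_le
  split_ifs with h
  · simp [dvd_mul_of_dvd_right h]
  · obtain ⟨k, rfl⟩ : ∃ k, p = k + 1 := ⟨p - 1, by have := hp.pos; omega⟩
    rw [sum_range_succ']
    have : ∀ d ∈ range k, (if k + 1 ∣ (d + 1) * m then (0 : ℝ) else 1 / (((k + 1 : ℕ) : ℝ) - 1)) =
        1 / (k : ℝ) := by
      intro d hd
      rw [if_neg]
      · push_cast; ring
      · intro h'
        rcases (Nat.Prime.dvd_mul hp).1 h' with h3 | h3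
        · have := Nat.le_of_dvd (by omega) h3
          rw [mem_range] at hd; omega
        · exact h h3
    rw [sum_congr rfl this]
    have hk : (k : ℝ) ≠ 0 := by push_cast at h2; linarith
    simp [hk]

theorem abs_w_le (a : ℤ) {p : ℕ} (hp : 2 ≤ p) (n : ℕ) :
    |w a p n| ≤ ind a p n + 1 / ((p : ℝ) - 1) := by
  have h2 : (2 : ℝ) ≤ p := by exact_mod_cast hp
  have h3 : 0 ≤ 1 / ((p : ℝ) - 1) := div_nonneg zero_le_one (by linarith)
  have := ind_nonneg a p n
  unfold w
  rw [abs_le]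
  split_ifs <;> constructor <;> linarith

theorem sum_ind_le {a : ℤ} {p : ℕ} (hp : p.Prime) (ha : ¬ (p : ℤ) ∣ a) (m : ℕ) :
    ∑ d ∈ range p, ind a p (d * m) ≤ 1 := by
  rw [sum_ind hp ha]; split_ifs <;> norm_num

theorem div_pred_le {p : ℕ} (hp : 2 ≤ p) : (p : ℝ) * (1 / ((p : ℝ) - 1)) ≤ 2 := by
  have h2 : (2 : ℝ) ≤ p := by exact_mod_cast hp
  rw [mul_one_div, div_le_iff₀ (by linarith)]; linarith

theorem sum_abs_w {a : ℤ} {p : ℕ} (hp : p.Prime) (ha : ¬ (p : ℤ) ∣ a) (m : ℕ) :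
    ∑ d ∈ range p, |w a p (d * m)| ≤ 3 := by
  refine (sum_le_sum fun d _ => abs_w_le a hp.two_le _).trans ?_
  rw [sum_add_distrib, sum_const, card_range, nsmul_eq_mul]
  linarith [sum_ind_le hp ha m, div_pred_le hp.two_le]

theorem sum_abs_ww {a : ℤ} {p : ℕ} (hp : p.Prime) (ha : ¬ (p : ℤ) ∣ a) (m m' : ℕ) :
    ∑ d ∈ range p, |w a p (d * m) * w a p (d * m')| ≤
      (if (p : ℤ) ∣ (m : ℤ) - m' then 1 else 0) + 4 / ((p : ℝ) - 1) := by
  have h2 : (2 : ℝ) ≤ p := by exact_mod_cast hp.two_le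
  set u : ℝ := 1 / ((p : ℝ) - 1) with hu
  have hu0 : 0 ≤ u := div_nonneg zero_le_one (by linarith)
  have h1 : ∀ d ∈ range p, |w a p (d * m) * w a p (d * m')| ≤
      (if (p : ℤ) ∣ (m : ℤ) - m' then 1 else 0) * ind a p (d * m) + u * ind a p (d * m) +
        u * ind a p (d * m') + u * u := by
    intro d _
    rw [abs_mul]
    refine (mul_le_mul (abs_w_le a hp.two_le _) (abs_w_le a hp.two_le _) (abs_nonneg _)
      (add_nonneg (ind_nonneg _ _ _) hu0)).trans ?_
    have h3 : ind a p (d * m) * ind a p (d * m') ≤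
        (if (p : ℤ) ∣ (m : ℤ) - m' then 1 else 0) * ind a p (d * m) := by
      split_ifs with h
      · nlinarith [ind_nonneg a p (d * m), ind_le_one a p (d * m')]
      · unfold ind
        split_ifs with h4 h5
        · exfalso
          have h6 := dvd_sub h4 h5
          push_cast at h6 h4
          rw [show (d : ℤ) * m - a - (d * m' - a) = d * (m - m') by ring] at h6
          rcases (Nat.prime_iff_prime_int.1 hp).dvd_or_dvd h6 with h7 | h7
          · apply ha
            have := dvd_sub (h7.mul_right (m : ℤ)) h4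
            rwa [sub_sub_cancel] at this
          · exact h h7
        all_goals norm_num
    rw [← hu]
    nlinarith
  refine (sum_le_sum h1).trans ?_
  simp only [sum_add_distrib, ← mul_sum, sum_const, card_range, nsmul_eq_mul]
  have h3 := sum_ind_le hp ha m
  have h4 := sum_ind_le hp ha m'
  have h5 := div_pred_le hp.two_le
  rw [← hu] at h5
  have h6 : (if (p : ℤ) ∣ (m : ℤ) - m' then (1 : ℝ) else 0) * ∑ d ∈ range p, ind a p (d * m) ≤
      if (p : ℤ) ∣ (m : ℤ) - m' then 1 else 0 := by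
    split_ifs <;> simp [h3]
  have h7 : 4 / ((p : ℝ) - 1) = 4 * u := by rw [hu]; ring
  nlinarith [mul_le_mul_of_nonneg_left h3 hu0, mul_le_mul_of_nonneg_left h4 hu0,
    mul_le_mul_of_nonneg_left h5 hu0]

theorem w_interval {a : ℤ} {p : ℕ} (hp : p.Prime) (ha : ¬ (p : ℤ) ∣ a) (m s t : ℕ) :
    |∑ d ∈ Ico s t, w a p (d * m)| ≤ 3 :=
  (per_zero hp.pos (fun d => w a p (d * m)) (fun d => w_congr a (mod_mul dvd_rfl d m))
    (sum_w hp ha m) s t).trans (sum_abs_w hp ha m)

theorem ww_interval {a : ℤ} {p p' : ℕ} (hp : p.Prime) (ha : ¬ (p : ℤ) ∣ a) (hp' : p'.Prime)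
    (ha' : ¬ (p' : ℤ) ∣ a) (hne : p ≠ p') (m m' s t : ℕ) :
    |∑ d ∈ Ico s t, w a p (d * m) * w a p' (d * m')| ≤ 9 := by
  have hc : p.Coprime p' := (Nat.coprime_primes hp hp').2 hne
  refine (per_zero (mul_pos hp.pos hp'.pos) (fun d => w a p (d * m) * w a p' (d * m'))
    (fun d => by
      rw [w_congr a (mod_mul (dvd_mul_right p p') d m),
        w_congr a (mod_mul (dvd_mul_left p' p) d m')]) ?_ s t).trans ?_
  · rw [sum_range_mul_coprime hc hp.pos hp'.pos (fun d => w a p (d * m)) (fun d => w a p' (d * m'))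
      (fun d => w_congr a (mod_mul dvd_rfl d m)) (fun d => w_congr a (mod_mul dvd_rfl d m')),
      sum_w hp ha, zero_mul]
  · simp only [abs_mul]
    rw [sum_range_mul_coprime hc hp.pos hp'.pos (fun d => |w a p (d * m)|)
      (fun d => |w a p' (d * m')|) (fun d => by rw [w_congr a (mod_mul dvd_rfl d m)])
      (fun d => by rw [w_congr a (mod_mul dvd_rfl d m')])]
    have h1 := sum_abs_w hp ha m
    have h2 := sum_abs_w hp' ha' m'
    calc _ ≤ (3 : ℝ) * 3 := mul_le_mul h1 h2 (sum_nonneg fun _ _ => abs_nonneg _) (by norm_num)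
      _ = 9 := by norm_num

end Pool.Agent.P.MP_0993da_nt
end

-- part Pool.Agent.P.MP_0993da_nt.Disp
section

/-!
The dispersion estimate for bilinear forms over prime moduli.
-/

namespace Pool.Agent.P.MP_0993da_nt

open Finset Real Pool.Agent.Lib.Sieve

/-- A set of primes larger than `P` and not dividing `a`. -/
def Good (a : ℤ) (P : ℕ) (S : Finset ℕ) : Prop := ∀ p ∈ S, p.Prime ∧ P < p ∧ ¬ (p : ℤ) ∣ a

/-- The discrepancy function summed over the moduli. -/
noncomputable def W (a : ℤ) (S : Finset ℕ) (n : ℕ) : ℝ := ∑ p ∈ S, w a p n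

variable {a : ℤ} {P : ℕ} {S : Finset ℕ}

theorem W_interval (hS : Good a P S) (m s t : ℕ) :
    |∑ d ∈ Ico s t, W a S (d * m)| ≤ 3 * S.card := by
  unfold W
  rw [sum_comm]
  refine (abs_sum_le_sum_abs _ _).trans ?_
  refine (sum_le_sum fun p hp => w_interval (hS p hp).1 (hS p hp).2.2 m s t).trans ?_
  simp [mul_comm]

theorem one_le_log {p : ℕ} (hp : 3 ≤ p) : 1 ≤ log p := by
  have h3 : (3 : ℝ) ≤ p := by exact_mod_cast hp
  rw [le_log_iff_exp_le (by linarith)]
  linarith [exp_one_lt_d9]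

theorem cnt_dvd (hS : Good a P S) (hP : 2 ≤ P) {x m m' : ℕ} (hm : m ∈ Ioc 0 x)
    (hm' : m' ∈ Ioc 0 x) :
    ∑ p ∈ S, (if (p : ℤ) ∣ (m : ℤ) - m' then (1 : ℝ) else 0) ≤
      log x + if m = m' then (S.card : ℝ) else 0 := by
  rw [mem_Ioc] at hm hm'
  have hl : 0 ≤ log x := log_natCast_nonneg x
  split_ifs with h
  · subst h; simp [hl]
  · set n := ((m : ℤ) - m').natAbs with hn
    have hn0 : n ≠ 0 := by omega
    have hnx : n ≤ x := by omega
    rw [← sum_filter, add_zero]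
    calc ∑ p ∈ S.filter (fun p : ℕ => (p : ℤ) ∣ (m : ℤ) - m'), (1 : ℝ)
        ≤ ∑ p ∈ S.filter (fun p : ℕ => (p : ℤ) ∣ (m : ℤ) - m'), log p :=
          sum_le_sum fun p hp => one_le_log (by have := (hS p (mem_filter.1 hp).1).2.1; omega)
      _ ≤ ∑ p ∈ n.primeFactors, log p := by
          refine sum_le_sum_of_subset_of_nonneg (fun p hp => ?_) fun p _ _ => log_natCast_nonneg p
          rw [mem_filter] at hp
          exact Nat.mem_primeFactors.2 ⟨(hS p hp.1).1, Int.natCast_dvd.1 hp.2, hn0⟩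
      _ ≤ log n := sum_log_primeFactors_le hn0
      _ ≤ log x := log_le_log (by positivity) (by exact_mod_cast hnx)

theorem kernel_le (hS : Good a P S) (hP : 2 ≤ P) {V T : ℕ} (hV : P ≤ V) (m m' : ℕ) :
    |∑ d ∈ Ioc V T, d * (W a S (d * m) * W a S (d * m'))| ≤
      (T : ℝ) ^ 2 * (18 * S.card ^ 2 / V + 2 / P *
        (∑ p ∈ S, (if (p : ℤ) ∣ (m : ℤ) - m' then (1 : ℝ) else 0) + 4 * S.card / P)) := by
  classical
  have hP0 : (2 : ℝ) ≤ P := by exact_mod_cast hP
  have hV0 : (P : ℝ) ≤ V := by exact_mod_cast hV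
  by_cases hT : T ≤ V
  · rw [Ioc_eq_empty (by omega), sum_empty, abs_zero]
    have : 0 ≤ ∑ p ∈ S, (if (p : ℤ) ∣ (m : ℤ) - m' then (1 : ℝ) else 0) :=
      sum_nonneg fun _ _ => by split_ifs <;> norm_num
    positivity
  have hT0 : (V : ℝ) ≤ T := by exact_mod_cast (not_le.1 hT).le
  have h1 : ∑ d ∈ Ioc V T, d * (W a S (d * m) * W a S (d * m')) =
      ∑ p ∈ S, ∑ p' ∈ S, ∑ d ∈ Ioc V T, (d : ℝ) * (w a p (d * m) * w a p' (d * m')) := by
    unfold W
    simp only [sum_mul_sum]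
    simp only [mul_sum]
    rw [sum_comm]
    exact sum_congr rfl fun p _ => sum_comm
  have h2 : ∀ p ∈ S, ∀ p' ∈ S,
      |∑ d ∈ Ioc V T, (d : ℝ) * (w a p (d * m) * w a p' (d * m'))| ≤
        18 * T + if p = p' then (T : ℝ) ^ 2 * (2 / P *
          ((if (p : ℤ) ∣ (m : ℤ) - m' then (1 : ℝ) else 0) + 4 / P)) else 0 := by
    intro p hp p' hp'
    obtain ⟨hpp, hPp, hpa⟩ := hS p hp
    by_cases h : p = p'
    · subst h
      rw [if_pos rfl]
      have hp1 : (P : ℝ) + 1 ≤ p := by exact_mod_cast hPp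
      have h3 := per_nonneg hpp.pos (fun d => |w a p (d * m) * w a p (d * m')|)
        (fun d => by
          rw [w_congr a (mod_mul dvd_rfl d m), w_congr a (mod_mul dvd_rfl d m')])
        (fun _ => abs_nonneg _) V T
      have h4 := sum_abs_ww hpp hpa m m'
      have h5 : (T : ℝ) / p + 1 ≤ T * (2 / P) := by
        have h6 : (T : ℝ) / p ≤ T / P := by gcongr
        have h7 : 1 ≤ (T : ℝ) / P := by rw [le_div_iff₀ (by linarith)]; linarith
        have : (T : ℝ) * (2 / P) = T / P + T / P := by ring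
        linarith
      have h6 : 4 / ((p : ℝ) - 1) ≤ 4 / P := by gcongr; linarith
      set c : ℝ := if (p : ℤ) ∣ (m : ℤ) - m' then (1 : ℝ) else 0
      calc _ ≤ ∑ d ∈ Ioc V T, (T : ℝ) * |w a p (d * m) * w a p (d * m')| := by
            refine (abs_sum_le_sum_abs _ _).trans (sum_le_sum fun d hd => ?_)
            rw [abs_mul, Nat.abs_cast]
            gcongr
            exact (mem_Ioc.1 hd).2
        _ ≤ T * ((T * (2 / P)) * (c + 4 / P)) := by
            rw [← mul_sum]
            refine mul_le_mul_of_nonneg_left (h3.trans ?_) (by positivity)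
            exact mul_le_mul h5 (by linarith) (sum_nonneg fun _ _ => abs_nonneg _) (by positivity)
        _ ≤ _ := by
            have : (0 : ℝ) ≤ T := by positivity
            nlinarith
    · rw [if_neg h, add_zero]
      obtain ⟨hpp', -, hpa'⟩ := hS p' hp'
      refine (abel_Ioc _ (ww_interval hpp hpa hpp' hpa' h m m') (fun n => (n : ℝ))
        (fun n => by positivity) (fun n _ => by push_cast; linarith) V T).trans ?_
      push_cast; linarith
  rw [h1]
  refine (abs_sum_le_sum_abs _ _).trans ?_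
  refine (sum_le_sum fun p hp => (abs_sum_le_sum_abs _ _).trans
    (sum_le_sum fun p' hp' => h2 p hp p' hp')).trans ?_
  have h3 : ∀ p ∈ S, ∑ p' ∈ S, (18 * (T : ℝ) + if p = p' then (T : ℝ) ^ 2 * (2 / P *
      ((if (p : ℤ) ∣ (m : ℤ) - m' then (1 : ℝ) else 0) + 4 / P)) else 0) =
      S.card * (18 * T) + (T : ℝ) ^ 2 * (2 / P *
      ((if (p : ℤ) ∣ (m : ℤ) - m' then (1 : ℝ) else 0) + 4 / P)) := by
    intro p hp
    rw [sum_add_distrib, sum_ite_eq, if_pos hp, sum_const, nsmul_eq_mul]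
  rw [sum_congr rfl h3, sum_add_distrib, sum_const, ← mul_sum, ← mul_sum, sum_add_distrib,
    sum_const, nsmul_eq_mul, nsmul_eq_mul]
  have h4 : (T : ℝ) ≤ T ^ 2 / V := by
    rw [le_div_iff₀ (by linarith)]; nlinarith
  have h5 : (S.card : ℝ) * (S.card * (18 * T)) ≤ S.card * (S.card * (18 * (T ^ 2 / V))) := by
    gcongr
  refine le_trans (add_le_add h5 le_rfl) (le_of_eq ?_)
  ring

theorem type_two (hS : Good a P S) (hP : 2 ≤ P) {V x : ℕ} (hV : P ≤ V) (α β : ℕ → ℝ)
    {L B1 B2 : ℝ} (hα : ∀ d ∈ Ioc V x, |α d| ≤ L) (hβ1 : ∑ m ∈ Ioc 0 x, |β m| / m ≤ B1)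
    (hβ2 : ∑ m ∈ Ioc 0 x, (|β m| / m) ^ 2 ≤ B2) :
    (∑ d ∈ Ioc V x, α d * ∑ m ∈ Ioc 0 (x / d), β m * W a S (d * m)) ^ 2 ≤
      (L ^ 2 * (1 + log x)) * (x ^ 2 * ((18 * S.card ^ 2 / V + 2 / P * (log x + 4 * S.card / P)) *
        B1 ^ 2 + 2 / P * S.card * B2)) := by
  classical
  have hl : 0 ≤ log x := log_natCast_nonneg x
  set A : ℝ := 18 * S.card ^ 2 / V + 2 / P * (log x + 4 * S.card / P) with hA
  have hA0 : 0 ≤ A := by positivity
  have hd0 : ∀ d ∈ Ioc V x, 0 < d := fun d hd => by have := (mem_Ioc.1 hd).1; omega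
  refine (sum_sq_le_sum_mul_sum_of_sq_le_mul (Ioc V x) (f := fun d => α d ^ 2 / d)
    (g := fun d => d * (∑ m ∈ Ioc 0 (x / d), β m * W a S (d * m)) ^ 2)
    (fun d _ => by positivity) (fun d _ => by positivity) (fun d hd => ?_)).trans ?_
  · have : (d : ℝ) ≠ 0 := by exact_mod_cast (hd0 d hd).ne'
    apply le_of_eq
    field_simp
  refine mul_le_mul ?_ ?_ (sum_nonneg fun d _ => by positivity) (by positivity)
  · calc ∑ d ∈ Ioc V x, α d ^ 2 / d ≤ ∑ d ∈ Ioc V x, L ^ 2 * (1 / (d : ℝ)) := by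
          refine sum_le_sum fun d hd => ?_
          rw [mul_one_div]
          exact div_le_div_of_nonneg_right (sq_le_sq' (abs_le.1 (hα d hd)).1 (abs_le.1 (hα d hd)).2)
            (by positivity)
      _ ≤ ∑ d ∈ Ioc 0 x, L ^ 2 * (1 / (d : ℝ)) :=
          sum_le_sum_of_subset_of_nonneg (Ioc_subset_Ioc_left (Nat.zero_le _))
            fun _ _ _ => by positivity
      _ ≤ _ := by
          rw [← mul_sum]
          exact mul_le_mul_of_nonneg_left (sum_inv_Ioc_le x) (by positivity)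
  have h1 : ∑ d ∈ Ioc V x, d * (∑ m ∈ Ioc 0 (x / d), β m * W a S (d * m)) ^ 2 =
      ∑ m ∈ Ioc 0 x, ∑ m' ∈ Ioc 0 x, β m * β m' *
        ∑ d ∈ Ioc V (x / max m m'), d * (W a S (d * m) * W a S (d * m')) := by
    have e1 : ∀ d ∈ Ioc V x, Ioc 0 (x / d) = (Ioc 0 x).filter (fun m => d * m ≤ x) := by
      intro d hd
      ext m
      simp only [mem_Ioc, mem_filter, Nat.le_div_iff_mul_le (hd0 d hd), mul_comm m d]
      have := hd0 d hd
      constructor
      · rintro ⟨h1, h2⟩; exact ⟨⟨h1, by nlinarith⟩, h2⟩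
      · rintro ⟨h1, h2⟩; exact ⟨h1.1, h2⟩
    have e2 : ∀ m ∈ Ioc 0 x, ∀ m' ∈ Ioc 0 x, Ioc V (x / max m m') =
        (Ioc V x).filter (fun d => d * m ≤ x ∧ d * m' ≤ x) := by
      intro m hm m' hm'
      rw [mem_Ioc] at hm hm'
      ext d
      simp only [mem_Ioc, mem_filter, Nat.le_div_iff_mul_le (lt_max_of_lt_left hm.1),
        mul_max_of_nonneg _ _ (Nat.zero_le d), max_le_iff]
      constructor
      · rintro ⟨h1, h2⟩; exact ⟨⟨h1, by nlinarith [h2.1, hm.1]⟩, h2⟩
      · rintro ⟨h1, h2⟩; exact ⟨h1.1, h2⟩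
    rw [sum_congr rfl fun d hd => by rw [e1 d hd, sum_filter, sq, sum_mul_sum, mul_sum],
      sum_comm]
    refine sum_congr rfl fun m hm => ?_
    simp only [mul_sum]
    rw [sum_comm]
    refine sum_congr rfl fun m' hm' => ?_
    rw [e2 m hm m' hm', sum_filter]
    refine sum_congr rfl fun d _ => ?_
    by_cases h1 : d * m ≤ x <;> by_cases h2 : d * m' ≤ x <;> simp [h1, h2]
    ring
  have h2 : ∀ m ∈ Ioc 0 x, ∀ m' ∈ Ioc 0 x, β m * β m' *
      ∑ d ∈ Ioc V (x / max m m'), d * (W a S (d * m) * W a S (d * m')) ≤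
      x ^ 2 * (A * (|β m| / m * (|β m'| / m')) +
        if m = m' then 2 / P * S.card * (|β m| / m) ^ 2 else 0) := by
    intro m hm m' hm'
    have h3 := kernel_le hS hP (T := x / max m m') hV m m'
    have h4 := cnt_dvd hS hP hm hm'
    rw [mem_Ioc] at hm hm'
    have hm0 : (0 : ℝ) < m := by exact_mod_cast hm.1
    have hm0' : (0 : ℝ) < m' := by exact_mod_cast hm'.1
    have h5 : ((x / max m m' : ℕ) : ℝ) ^ 2 ≤ x ^ 2 / (m * m') := by
      have h6 : ((x / max m m' : ℕ) : ℝ) ≤ x / m :=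
        le_trans (by exact_mod_cast Nat.div_le_div_left (le_max_left _ _) hm.1) Nat.cast_div_le
      have h7 : ((x / max m m' : ℕ) : ℝ) ≤ x / m' :=
        le_trans (by exact_mod_cast Nat.div_le_div_left (le_max_right _ _) hm'.1) Nat.cast_div_le
      calc _ = ((x / max m m' : ℕ) : ℝ) * ((x / max m m' : ℕ) : ℝ) := sq _
        _ ≤ x / m * (x / m') := by gcongr
        _ = _ := by field_simp
    refine (le_abs_self _).trans ?_
    rw [abs_mul, abs_mul]
    have h6 : 0 ≤ ∑ p ∈ S, (if (p : ℤ) ∣ (m : ℤ) - m' then (1 : ℝ) else 0) :=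
      sum_nonneg fun _ _ => by split_ifs <;> norm_num
    calc _ ≤ |β m| * |β m'| * (x ^ 2 / (m * m') * (18 * S.card ^ 2 / V + 2 / P *
          ((log x + if m = m' then (S.card : ℝ) else 0) + 4 * S.card / P))) := by
          refine mul_le_mul_of_nonneg_left (h3.trans ?_) (by positivity)
          gcongr
      _ = _ := by
          rw [hA]
          split_ifs with h
          · subst h; field_simp; ring
          · field_simp; ring
  rw [h1]
  refine (sum_le_sum fun m hm => sum_le_sum fun m' hm' => h2 m hm m' hm').trans ?_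
  simp only [← mul_sum]
  refine mul_le_mul_of_nonneg_left ?_ (by positivity)
  have h3 : ∀ m ∈ Ioc 0 x, ∑ m' ∈ Ioc 0 x, (A * (|β m| / m * (|β m'| / m')) +
      if m = m' then 2 / P * S.card * (|β m| / m) ^ 2 else 0) =
      A * (∑ m' ∈ Ioc 0 x, |β m'| / m') * (|β m| / m) + 2 / P * S.card * (|β m| / m) ^ 2 := by
    intro m hm
    rw [sum_add_distrib, sum_ite_eq, if_pos hm, ← mul_sum, ← mul_sum]; ring
  rw [sum_congr rfl h3, sum_add_distrib, ← mul_sum, ← mul_sum]
  have h4 : 0 ≤ ∑ m ∈ Ioc 0 x, |β m| / m := sum_nonneg fun _ _ => by positivity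
  refine add_le_add ?_ (mul_le_mul_of_nonneg_left hβ2 (by positivity))
  rw [mul_assoc, ← sq]
  gcongr

end Pool.Agent.P.MP_0993da_nt
end

-- part Pool.Agent.P.MP_0993da_nt.Vau
section

/-!
Vaughan decomposition and equidistribution of primes in one class for many prime moduli.
-/

namespace Pool.Agent.P.MP_0993da_nt

open Finset Real Pool.Agent.Lib.Sieve
open ArithmeticFunction hiding log
open scoped ArithmeticFunction.zeta ArithmeticFunction.Moebius

theorem af_sub (f g : ArithmeticFunction ℝ) (n : ℕ) : (f - g) n = f n - g n := by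
  rw [eq_sub_iff_add_eq, ← ArithmeticFunction.add_apply, sub_add_cancel]

theorem conv_sum (f g : ArithmeticFunction ℝ) (h : ℕ → ℝ) (N : ℕ) :
    ∑ n ∈ Ioc 0 N, (f * g) n * h n =
      ∑ d ∈ Ioc 0 N, f d * ∑ m ∈ Ioc 0 (N / d), g m * h (d * m) := by
  simp only [ArithmeticFunction.mul_apply, sum_mul, mul_sum]
  rw [sum_sigma', sum_sigma']
  refine sum_nbij' (fun x => ⟨x.2.1, x.2.2⟩) (fun y => ⟨y.1 * y.2, (y.1, y.2)⟩) ?_ ?_ ?_ ?_ ?_
  · rintro ⟨n, d, m⟩ hx
    simp only [mem_sigma, mem_Ioc, Nat.mem_divisorsAntidiagonal] at hx ⊢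
    obtain ⟨⟨h1, h2⟩, rfl, h3⟩ := hx
    have hd : 0 < d := Nat.pos_of_mul_pos_right h1
    have hm : 0 < m := Nat.pos_of_mul_pos_left h1
    exact ⟨⟨hd, by nlinarith⟩, hm, (Nat.le_div_iff_mul_le hd).2 (by rwa [mul_comm])⟩
  · rintro ⟨d, m⟩ hy
    simp only [mem_sigma, mem_Ioc, Nat.mem_divisorsAntidiagonal] at hy ⊢
    obtain ⟨⟨h1, h2⟩, h3, h4⟩ := hy
    have := (Nat.le_div_iff_mul_le h1).1 h4
    exact ⟨⟨by positivity, by rwa [mul_comm]⟩, trivial, by positivity⟩
  · rintro ⟨n, d, m⟩ hx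
    simp only [mem_sigma, mem_Ioc, Nat.mem_divisorsAntidiagonal] at hx
    obtain ⟨-, rfl, -⟩ := hx
    rfl
  · rintro ⟨d, m⟩ _; rfl
  · rintro ⟨n, d, m⟩ hx
    simp only [mem_sigma, mem_Ioc, Nat.mem_divisorsAntidiagonal] at hx
    obtain ⟨-, rfl, -⟩ := hx
    simp only [mul_assoc]

/-- Truncation of an arithmetic function. -/
def trunc (f : ArithmeticFunction ℝ) (U : ℕ) : ArithmeticFunction ℝ :=
  ⟨fun n => if n ≤ U then f n else 0, by simp⟩

theorem trunc_apply (f : ArithmeticFunction ℝ) (U n : ℕ) :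
    trunc f U n = if n ≤ U then f n else 0 := rfl

theorem sum_trunc_le (f : ArithmeticFunction ℝ) (U N : ℕ) (F : ℕ → ℝ) {A B : ℝ} (hA : 0 ≤ A)
    (hB : 0 ≤ B) (hf : ∀ d ∈ Ioc 0 N, |f d| ≤ A) (hF : ∀ d ∈ Ioc 0 N, |F d| ≤ B) :
    |∑ d ∈ Ioc 0 N, trunc f U d * F d| ≤ U * (A * B) := by
  classical
  refine (abs_sum_le_sum_abs _ _).trans ?_
  calc _ ≤ ∑ d ∈ Ioc 0 N, if d ≤ U then A * B else 0 := by
        refine sum_le_sum fun d hd => ?_
        rw [trunc_apply]
        split_ifs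
        · rw [abs_mul]; exact mul_le_mul (hf d hd) (hF d hd) (abs_nonneg _) hA
        · simp
    _ ≤ ∑ d ∈ Ioc 0 U, A * B := by
        rw [← sum_filter]
        refine sum_le_sum_of_subset_of_nonneg (fun d hd => ?_) fun _ _ _ => by positivity
        simp only [mem_filter, mem_Ioc] at hd ⊢
        exact ⟨hd.1.1, hd.2⟩
    _ = _ := by simp

theorem sum_tau_div (x : ℕ) :
    ∑ m ∈ Ioc 0 x, (m.divisors.card : ℝ) / m ≤ (1 + log x) ^ 2 := by
  have h1 := conv_sum (ζ : ArithmeticFunction ℝ) ζ (fun n => 1 / (n : ℝ)) x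
  have h2 : ∀ m ∈ Ioc 0 x, (m.divisors.card : ℝ) / m =
      ((ζ : ArithmeticFunction ℝ) * ζ) m * (1 / (m : ℝ)) := by
    intro m _
    rw [coe_mul_zeta_apply, mul_one_div]
    congr 1
    rw [card_eq_sum_ones]
    push_cast
    refine sum_congr rfl fun d hd => ?_
    simp [natCoe_apply, zeta_apply, (Nat.pos_of_mem_divisors hd).ne']
  rw [sum_congr rfl h2, h1]
  have hl : 0 ≤ log x := log_natCast_nonneg x
  calc _ ≤ ∑ d ∈ Ioc 0 x, 1 / (d : ℝ) * (1 + log x) := by
        refine sum_le_sum fun d hd => ?_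
        have hd0 := (mem_Ioc.1 hd).1
        have h3 : ∑ m ∈ Ioc 0 (x / d), (ζ : ArithmeticFunction ℝ) m * (1 / ((d * m : ℕ) : ℝ)) =
            1 / (d : ℝ) * ∑ m ∈ Ioc 0 (x / d), 1 / (m : ℝ) := by
          rw [mul_sum]
          refine sum_congr rfl fun m hm => ?_
          simp [natCoe_apply, zeta_apply, (mem_Ioc.1 hm).1.ne', mul_comm]
        rw [h3]
        have h4 : ∑ m ∈ Ioc 0 (x / d), 1 / (m : ℝ) ≤ 1 + log x :=
          (sum_le_sum_of_subset_of_nonneg (Ioc_subset_Ioc_right (Nat.div_le_self _ _))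
            fun _ _ _ => by positivity).trans (sum_inv_Ioc_le x)
        simp only [natCoe_apply, zeta_apply, hd0.ne', if_false, Nat.cast_one, one_mul]
        gcongr
    _ ≤ _ := by
        rw [← sum_mul, sq]
        exact mul_le_mul_of_nonneg_right (sum_inv_Ioc_le x) (by positivity)

theorem tau_le {P m : ℕ} (hP : 0 < P) (hm : P ^ 2 < m) :
    (m.divisors.card : ℝ) / m ≤ 2 / P := by
  have hm0 : 0 < m := by omega
  have h1 : m.divisors ⊆ Ioc 0 P ∪ (Ioc 0 (m / P)).image (fun e => m / e) := by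
    intro d hd
    have hd0 := Nat.pos_of_mem_divisors hd
    obtain ⟨e, rfl⟩ := Nat.dvd_of_mem_divisors hd
    have he : 0 < e := Nat.pos_of_mul_pos_left hm0
    by_cases h : d ≤ P
    · exact mem_union_left _ (mem_Ioc.2 ⟨hd0, h⟩)
    · refine mem_union_right _ (mem_image.2 ⟨e, mem_Ioc.2 ⟨he, ?_⟩, Nat.mul_div_cancel _ he⟩)
      exact (Nat.le_div_iff_mul_le hP).2 (by nlinarith)
  have h2 := (card_le_card h1).trans ((card_union_le _ _).trans
    (Nat.add_le_add_left card_image_le _))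
  simp only [Nat.card_Ioc, Nat.sub_zero] at h2
  have h3 : (m.divisors.card : ℝ) ≤ P + m / P :=
    le_trans (by exact_mod_cast h2) (add_le_add le_rfl Nat.cast_div_le)
  have hP' : (0 : ℝ) < P := by exact_mod_cast hP
  have hm' : (P : ℝ) ^ 2 ≤ m := by exact_mod_cast hm.le
  have h4 : (P : ℝ) ≤ m / P := by rw [le_div_iff₀ hP']; nlinarith
  rw [div_le_iff₀ (by exact_mod_cast hm0)]
  have : 2 / (P : ℝ) * m = m / P + m / P := by ring
  linarith

/-- The coefficient of the bilinear term. -/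
noncomputable def bet (U : ℕ) : ArithmeticFunction ℝ := trunc (μ : ArithmeticFunction ℝ) U * ζ - 1

theorem abs_mu_le (d : ℕ) : |(μ : ArithmeticFunction ℝ) d| ≤ 1 := by
  rw [intCoe_apply]; exact_mod_cast abs_moebius_le_one

theorem bet_small {U m : ℕ} (hm : m ≤ U) : bet U m = 0 := by
  have h1 : (trunc (μ : ArithmeticFunction ℝ) U * ζ) m = ((μ : ArithmeticFunction ℝ) * ζ) m := by
    rw [coe_mul_zeta_apply, coe_mul_zeta_apply]
    refine sum_congr rfl fun d hd => ?_
    rw [trunc_apply, if_pos ((Nat.divisor_le hd).trans hm)]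
  rw [coe_moebius_mul_coe_zeta] at h1
  unfold bet
  rw [af_sub, h1, sub_self]

theorem abs_bet_le {U : ℕ} (hU : 1 ≤ U) (m : ℕ) : |bet U m| ≤ m.divisors.card := by
  by_cases hm : m ≤ U
  · rw [bet_small hm]; simp
  unfold bet
  rw [af_sub, one_apply_ne (by omega), sub_zero, coe_mul_zeta_apply]
  refine (abs_sum_le_sum_abs _ _).trans ?_
  rw [card_eq_sum_ones]
  push_cast
  refine sum_le_sum fun d _ => ?_
  rw [trunc_apply]
  split_ifs
  · exact abs_mu_le d
  · simp

theorem vaughan (U V : ℕ) :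
    (Λ : ArithmeticFunction ℝ) = trunc Λ V + trunc (μ : ArithmeticFunction ℝ) U * ArithmeticFunction.log -
      trunc (μ : ArithmeticFunction ℝ) U * (trunc Λ V * ζ) - (Λ - trunc Λ V) * bet U := by
  rw [← vonMangoldt_mul_zeta, bet]; ring

theorem abs_vm_le {d x : ℕ} (hd : d ∈ Ioc 0 x) : |Λ d| ≤ 1 + log x := by
  rw [mem_Ioc] at hd
  rw [abs_of_nonneg vonMangoldt_nonneg]
  have : log d ≤ log x := log_le_log (by exact_mod_cast hd.1) (by exact_mod_cast hd.2)
  linarith [vonMangoldt_le_log (n := d)]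

variable {a : ℤ} {P : ℕ} {S : Finset ℕ}

theorem W_Ioc (hS : Good a P S) (m s t : ℕ) : |∑ d ∈ Ioc s t, W a S (m * d)| ≤ 3 * S.card := by
  have e : Ioc s t = Ico (s + 1) (t + 1) := by ext n; simp only [mem_Ioc, mem_Ico]; omega
  rw [e]
  simpa only [mul_comm m] using W_interval hS m _ _

/-- Equidistribution of primes in the class `a` on average over prime moduli. -/
theorem disp (hS : Good a P S) (hP : 2 ≤ P) (hM : S.card ≤ 4 * P) {x : ℕ} (hx : 1 ≤ x) :
    ∃ E : ℝ, E ^ 2 ≤ 400 * (1 + log x) ^ 8 * x ^ 2 / P ∧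
      |∑ n ∈ Ioc 0 x, Λ n * W a S n - E| ≤ 36 * P ^ 6 * (1 + log x) := by
  have hl : 0 ≤ log x := log_natCast_nonneg x
  set L : ℝ := 1 + log x with hL
  have hL1 : 1 ≤ L := by linarith
  have hP0 : (2 : ℝ) ≤ P := by exact_mod_cast hP
  have hM' : (S.card : ℝ) ≤ 4 * P := by exact_mod_cast hM
  have hM3 : 3 * (S.card : ℝ) ≤ 12 * P := by linarith
  refine ⟨-∑ n ∈ Ioc 0 x, ((Λ - trunc Λ (P ^ 3)) * bet (P ^ 2)) n * W a S n, ?_, ?_⟩
  · rw [neg_sq, conv_sum]
    have h1 : ∑ d ∈ Ioc 0 x, (Λ - trunc Λ (P ^ 3)) d *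
        ∑ m ∈ Ioc 0 (x / d), bet (P ^ 2) m * W a S (d * m) =
        ∑ d ∈ Ioc (P ^ 3) x, Λ d * ∑ m ∈ Ioc 0 (x / d), bet (P ^ 2) m * W a S (d * m) := by
      symm
      refine sum_subset_zero_on_sdiff (Ioc_subset_Ioc_left (Nat.zero_le _)) ?_ ?_
      · intro d hd
        simp only [mem_sdiff, mem_Ioc] at hd
        rw [af_sub, trunc_apply, if_pos (by omega), sub_self, zero_mul]
      · intro d hd
        rw [af_sub, trunc_apply, if_neg (not_le.2 (mem_Ioc.1 hd).1), sub_zero]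
    have hU : 1 ≤ P ^ 2 := Nat.one_le_pow _ _ (by omega)
    have h2 : ∑ m ∈ Ioc 0 x, |bet (P ^ 2) m| / m ≤ L ^ 2 :=
      (sum_le_sum fun m _ => div_le_div_of_nonneg_right (abs_bet_le hU m) (by positivity)).trans
        (sum_tau_div x)
    have h3 : ∑ m ∈ Ioc 0 x, (|bet (P ^ 2) m| / m) ^ 2 ≤ 2 / P * L ^ 2 := by
      refine le_trans (sum_le_sum fun m _ => ?_)
        ((mul_sum _ _ _).ge.trans (mul_le_mul_of_nonneg_left h2 (by positivity)))
      rw [sq]
      refine mul_le_mul_of_nonneg_right ?_ (by positivity)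
      by_cases hm : m ≤ P ^ 2
      · rw [bet_small hm]; simp only [abs_zero, zero_div]; positivity
      · exact (div_le_div_of_nonneg_right (abs_bet_le hU m) (by positivity)).trans
          (tau_le (by omega) (not_le.1 hm))
    rw [h1]
    refine (type_two hS hP (Nat.le_self_pow (by norm_num) P) (fun d => Λ d)
      (fun m => bet (P ^ 2) m) (L := L)
      (fun d hd => abs_vm_le (Ioc_subset_Ioc_left (Nat.zero_le _) hd)) h2 h3).trans ?_
    have h4 : 18 * (S.card : ℝ) ^ 2 / ((P ^ 3 : ℕ) : ℝ) ≤ 288 / P := by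
      push_cast
      calc _ ≤ 18 * (4 * P : ℝ) ^ 2 / P ^ 3 := by gcongr
        _ = _ := by field_simp; norm_num
    have h5 : 4 * (S.card : ℝ) / P ≤ 16 := by rw [div_le_iff₀ (by linarith)]; linarith
    have h6 : 2 / (P : ℝ) * S.card ≤ 8 := by
      rw [div_mul_eq_mul_div, div_le_iff₀ (by linarith)]; linarith
    have h7 : L ^ 2 ≤ L ^ 5 := pow_le_pow_right₀ hL1 (by norm_num)
    have h8 : L ^ 4 ≤ L ^ 5 := pow_le_pow_right₀ hL1 (by norm_num)
    calc _ ≤ (L ^ 2 * L) * (x ^ 2 * ((288 / P + 2 / P * (L + 16)) * (L ^ 2) ^ 2 +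
          8 * (2 / P * L ^ 2))) := by
          rw [← hL]
          gcongr
          linarith
      _ = L ^ 3 * x ^ 2 / P * (320 * L ^ 4 + 2 * L ^ 5 + 16 * L ^ 2) := by ring
      _ ≤ L ^ 3 * x ^ 2 / P * (400 * L ^ 5) := by
          refine mul_le_mul_of_nonneg_left ?_ (by positivity)
          have : 0 ≤ L ^ 5 := by positivity
          linarith
      _ = _ := by ring
  · have h1 : ∑ n ∈ Ioc 0 x, Λ n * W a S n -
        -∑ n ∈ Ioc 0 x, ((Λ - trunc Λ (P ^ 3)) * bet (P ^ 2)) n * W a S n =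
        ∑ n ∈ Ioc 0 x, trunc Λ (P ^ 3) n * W a S n +
        ∑ n ∈ Ioc 0 x, (trunc (μ : ArithmeticFunction ℝ) (P ^ 2) * ArithmeticFunction.log) n *
          W a S n -
        ∑ n ∈ Ioc 0 x, (trunc (μ : ArithmeticFunction ℝ) (P ^ 2) * (trunc Λ (P ^ 3) * ζ)) n *
          W a S n := by
      rw [sub_neg_eq_add, ← sum_add_distrib, ← sum_add_distrib, ← sum_sub_distrib]
      refine sum_congr rfl fun n _ => ?_
      have := congrArg (fun f : ArithmeticFunction ℝ => f n) (vaughan (P ^ 2) (P ^ 3))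
      simp only [af_sub, ArithmeticFunction.add_apply] at this
      rw [← add_mul, ← add_mul, ← sub_mul]
      congr 1
      linarith
    have h2 : |∑ n ∈ Ioc 0 x, trunc Λ (P ^ 3) n * W a S n| ≤ (P ^ 3 : ℕ) * (L * (12 * P)) := by
      refine sum_trunc_le _ _ _ _ (by linarith) (by positivity) (fun d hd => abs_vm_le hd)
        fun d _ => le_trans ?_ hM3
      simpa using W_Ioc hS d 0 1
    have h3 : |∑ n ∈ Ioc 0 x, (trunc (μ : ArithmeticFunction ℝ) (P ^ 2) *
        ArithmeticFunction.log) n * W a S n| ≤ (P ^ 2 : ℕ) * (1 * (12 * P * L)) := by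
      rw [conv_sum]
      refine sum_trunc_le _ _ _ _ (by linarith) (by positivity) (fun d _ => abs_mu_le d)
        fun d hd => ?_
      simp only [log_apply]
      refine (abel_Ioc (fun m => W a S (d * m))
        (fun s t => by simpa only [mul_comm d] using W_interval hS d s t) (fun m => log m)
        (fun n => log_natCast_nonneg n) (fun n hn => ?_) 0 _).trans ?_
      · exact log_le_log (by exact_mod_cast hn) (by push_cast; linarith)
      · refine mul_le_mul hM3 ?_ (log_natCast_nonneg _) (by positivity)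
        have h4 : ((x / d + 1 : ℕ) : ℝ) ≤ exp 1 * x := by
          have h5 : x / d + 1 ≤ 2 * x := by have := Nat.div_le_self x d; omega
          have h6 : ((x / d + 1 : ℕ) : ℝ) ≤ 2 * x := by exact_mod_cast h5
          have : (0 : ℝ) ≤ x := by positivity
          nlinarith [exp_one_gt_d9]
        have hx0 : (0 : ℝ) < x := by exact_mod_cast hx
        calc _ ≤ log (exp 1 * x) := log_le_log (by positivity) h4
          _ = L := by rw [log_mul (exp_pos 1).ne' hx0.ne', log_exp]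
    have h4 : |∑ n ∈ Ioc 0 x, (trunc (μ : ArithmeticFunction ℝ) (P ^ 2) *
        (trunc Λ (P ^ 3) * ζ)) n * W a S n| ≤
        (P ^ 2 : ℕ) * (1 * ((P ^ 3 : ℕ) * (L * (12 * P)))) := by
      rw [conv_sum]
      refine sum_trunc_le _ _ _ _ (by linarith) (by positivity) (fun d _ => abs_mu_le d)
        fun d hd => ?_
      rw [conv_sum]
      refine sum_trunc_le _ _ _ _ (by linarith) (by positivity)
        (fun e he => abs_vm_le (Ioc_subset_Ioc_right (Nat.div_le_self _ _) he)) fun e _ => ?_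
      refine le_trans (le_of_eq ?_) ((W_Ioc hS (d * e) 0 (x / d / e)).trans hM3)
      congr 1
      refine sum_congr rfl fun m hm => ?_
      simp [natCoe_apply, zeta_apply, (mem_Ioc.1 hm).1.ne', mul_assoc]
    rw [h1]
    push_cast at h2 h3 h4
    have h5 : (P : ℝ) ^ 3 * (L * (12 * P)) ≤ 12 * P ^ 6 * L := by
      have : (P : ℝ) ^ 4 ≤ P ^ 6 := pow_le_pow_right₀ (by linarith) (by norm_num)
      nlinarith
    have h6 : (P : ℝ) ^ 2 * (1 * (12 * P * L)) ≤ 12 * P ^ 6 * L := by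
      have : (P : ℝ) ^ 3 ≤ P ^ 6 := pow_le_pow_right₀ (by linarith) (by norm_num)
      nlinarith
    have h7 : (P : ℝ) ^ 2 * (1 * (P ^ 3 * (L * (12 * P)))) = 12 * P ^ 6 * L := by ring
    rw [abs_le] at h2 h3 h4 ⊢
    constructor <;> linarith [h2.1, h2.2, h3.1, h3.2, h4.1, h4.2]

end Pool.Agent.P.MP_0993da_nt
end

-- part Pool.Agent.P.MP_0993da_nt.Pair
section

/-!
Two linear forms taking prime values, and the size of the singular factor.
-/

namespace Pool.Agent.P.MP_0993da_nt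

open Finset Real Pool.Agent.Lib.Sieve

/-- A prime value that is not too small. -/
def Big (T : ℕ) (z : ℤ) : Prop := z.toNat.Prime ∧ (T : ℤ) ≤ 4 * z

instance (T : ℕ) (z : ℤ) : Decidable (Big T z) := by unfold Big; infer_instance

/-- The root of a linear form modulo `l`. -/
def rt (l : ℕ) (s b : ℤ) : ℕ := (-(b : ZMod l) * (s : ZMod l)⁻¹).val

theorem rt_lt {l : ℕ} (hl : 0 < l) (s b : ℤ) : rt l s b < l := by
  have : NeZero l := ⟨hl.ne'⟩
  exact ZMod.val_lt _

theorem rt_dvd {l : ℕ} (hl : l.Prime) {s : ℤ} (hs : ¬ (l : ℤ) ∣ s) (b : ℤ) {n : ℕ}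
    (h : n % l = rt l s b) : (l : ℤ) ∣ s * n + b := by
  have := Fact.mk hl
  have hs' : (s : ZMod l) ≠ 0 := fun h => hs ((ZMod.intCast_zmod_eq_zero_iff_dvd s l).1 h)
  have h1 : (n : ZMod l) = -(b : ZMod l) * (s : ZMod l)⁻¹ := by
    rw [← ZMod.natCast_mod, h, rt, ZMod.natCast_zmod_val]
  rw [← ZMod.intCast_zmod_eq_zero_iff_dvd]
  push_cast
  rw [h1]
  field_simp
  ring

theorem Big.not_dvd {T l : ℕ} {z : ℤ} (h : Big T z) (hl : l.Prime) (hT : 4 * l < T) :
    ¬ (l : ℤ) ∣ z := by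
  intro hd
  have h0 : 0 ≤ z := by have := h.2; omega
  obtain ⟨q, rfl⟩ := Int.eq_ofNat_of_zero_le h0
  have h1 := h.1
  have h2 := h.2
  rw [Int.toNat_natCast] at h1
  have := (Nat.prime_dvd_prime_iff_eq hl h1).1 (Int.natCast_dvd_natCast.1 hd)
  omega

/-- The constant in the upper bound sieve. -/
noncomputable def C0 : ℝ := 12800 * exp 6 + 300

theorem C0_pos : 0 < C0 := by unfold C0; positivity

theorem pair_gen {T D : ℕ} (hT : 2 ^ 120 ≤ T) (hD : D ≠ 0) (s b s' b' : ℤ)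
    (h : ∀ l : ℕ, l.Prime → ¬ l ∣ D →
      ¬ (l : ℤ) ∣ s ∧ ¬ (l : ℤ) ∣ s' ∧ ¬ (l : ℤ) ∣ s * b' - s' * b) :
    (((range T).filter (fun t : ℕ => Big T (s * t + b) ∧ Big T (s' * t + b'))).card : ℝ) ≤
      C0 * ew D ^ 2 * (T / log T ^ 2) := by
  classical
  obtain ⟨y, hy8, hlog, -, herr⟩ := exists_level hT
  have hl := two_le_log hy8
  have hT1 : (2 : ℝ) ^ 120 ≤ T := by exact_mod_cast hT
  have hT0 : (0 : ℝ) < T := lt_of_lt_of_le (by positivity) hT1
  have hlT : 80 ≤ log T := by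
    have := log_le_log (by positivity) hT1
    rw [log_pow] at this
    have := log_two_gt_d9
    push_cast at *
    linarith
  have hyT : 4 * y < T := by
    have h1 : (T : ℝ) / log T ^ 2 ≤ T / 80 ^ 2 := by gcongr
    have h2 : (0 : ℝ) ≤ (y : ℝ) ^ 36 := by positivity
    have : (4 : ℝ) * y < T := by linarith
    exact_mod_cast this
  let Ω : ℕ → Finset ℕ := fun l => if l ∣ D then ∅ else {rt l s b, rt l s' b'}
  have h1 := sieve_upper Ω (sp y) hy8 (fun p hp => mem_sp hp)
    (fun p hp => by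
      have hp0 := (mem_sp hp).1.pos
      simp only [Ω]
      split_ifs
      · exact empty_subset _
      · intro r hr
        simp only [mem_insert, mem_singleton] at hr
        rcases hr with rfl | rfl <;> exact mem_range.2 (rt_lt hp0 _ _))
    (fun p _ => by
      simp only [Ω]
      split_ifs
      · simp
      · exact card_le_two) T
  have hsub : (range T).filter (fun t : ℕ => Big T (s * t + b) ∧ Big T (s' * t + b')) ⊆
      (range T).filter (fun n => ∀ p ∈ sp y, n % p ∉ Ω p) := by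
    intro t ht
    rw [mem_filter] at ht ⊢
    refine ⟨ht.1, fun p hp => ?_⟩
    obtain ⟨hpp, -, hpy⟩ := mem_sp hp
    simp only [Ω]
    split_ifs with hd
    · simp
    · obtain ⟨h2, h3, -⟩ := h p hpp hd
      simp only [mem_insert, mem_singleton, not_or]
      exact ⟨fun e => ht.2.1.not_dvd hpp (by omega) (rt_dvd hpp h2 b e),
        fun e => ht.2.2.not_dvd hpp (by omega) (rt_dvd hpp h3 b' e)⟩
  have h3 : ∀ p ∈ sp y, 2 * (1 / (p : ℝ)) - 2 * (if p ∣ D then 1 / (p : ℝ) else 0) ≤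
      ((Ω p).card : ℝ) / p := by
    intro p hp
    obtain ⟨hpp, -, -⟩ := mem_sp hp
    simp only [Ω]
    split_ifs with hd
    · simp
    · obtain ⟨h2, h3, h4⟩ := h p hpp hd
      have hne : rt p s b ≠ rt p s' b' := by
        intro e
        have e1 := rt_dvd hpp h2 b (Nat.mod_eq_of_lt (rt_lt hpp.pos s b))
        have e2 := rt_dvd hpp h3 b' ((Nat.mod_eq_of_lt (rt_lt hpp.pos s b)).trans e)
        apply h4
        have := dvd_sub (e2.mul_left s) (e1.mul_left s')
        rwa [show s * (s' * (rt p s b : ℤ) + b') - s' * (s * (rt p s b : ℤ) + b) =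
          s * b' - s' * b by ring] at this
      rw [card_pair hne]
      push_cast
      apply le_of_eq; ring
  have h4 := sum_le_sum h3
  rw [sum_sub_distrib, ← mul_sum, ← mul_sum] at h4
  have h5 := sum_ite_dvd_le (sp y) (fun p hp => (mem_sp hp).1) hD
  have h8 := le_sum_sp (y := y) (by omega)
  have h9 : exp (-∑ p ∈ sp y, ((Ω p).card : ℝ) / p) ≤ exp 6 * ew D ^ 2 / log y ^ 2 := by
    have : log y ^ 2 = exp (2 * log (log y)) := by
      rw [show (2 : ℝ) * log (log y) = (2 : ℕ) * log (log y) by norm_num, exp_nat_mul,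
        exp_log (by linarith)]
    rw [this, ew, ← exp_nat_mul, ← exp_add, ← exp_sub]
    exact exp_le_exp.2 (by push_cast; linarith)
  have hE : 1 ≤ ew D ^ 2 := one_le_pow₀ (one_le_ew D)
  set E := ew D ^ 2
  have h10 : 2 * (T : ℝ) * exp (-∑ p ∈ sp y, ((Ω p).card : ℝ) / p) ≤
      12800 * exp 6 * E * (T / log T ^ 2) := by
    have h12 : (log T / 80) ^ 2 ≤ log y ^ 2 := by gcongr; linarith
    calc _ ≤ 2 * T * (exp 6 * E / log y ^ 2) := by gcongr
      _ ≤ 2 * T * (exp 6 * E / (log T / 80) ^ 2) := by gcongr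
      _ = _ := by field_simp; norm_num
  have h13 : 300 * (T / log T ^ 2) ≤ 300 * E * (T / log T ^ 2) := by
    have : (0 : ℝ) ≤ T / log T ^ 2 := by positivity
    nlinarith
  have h14 : (((range T).filter (fun t : ℕ => Big T (s * t + b) ∧ Big T (s' * t + b'))).card : ℝ) ≤
      ((range T).filter (fun n => ∀ p ∈ sp y, n % p ∉ Ω p)).card := by
    exact_mod_cast card_le_card hsub
  have h15 : (0 : ℝ) ≤ y := by positivity
  calc _ ≤ 12800 * exp 6 * E * (T / log T ^ 2) + 300 * E * (T / log T ^ 2) := by linarith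
    _ = _ := by unfold C0; ring

theorem ew_mul_le {m n : ℕ} (hm : m ≠ 0) (hn : n ≠ 0) : ew (m * n) ≤ ew m * ew n := by
  unfold ew
  rw [← exp_add, Nat.primeFactors_mul hm hn, exp_le_exp, ← sum_union_inter]
  exact le_add_of_nonneg_right (sum_nonneg fun _ _ => by positivity)

theorem ew_prime {p : ℕ} (hp : p.Prime) : ew p ≤ 2 := by
  unfold ew
  rw [hp.primeFactors, sum_singleton, ← le_log_iff_exp_le (by norm_num)]
  have h2 : (2 : ℝ) ≤ p := by exact_mod_cast hp.two_le
  have := one_div_le_one_div_of_le (by norm_num) h2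
  linarith [log_two_gt_d9]

theorem ew_prime_mul {p n : ℕ} (hp : p.Prime) (hn : n ≠ 0) : ew (p * n) ≤ 2 * ew n :=
  (ew_mul_le hp.ne_zero hn).trans (mul_le_mul_of_nonneg_right (ew_prime hp) (ew_pos n).le)

theorem ew_sq_le (D : ℕ) :
    ew D ^ 2 ≤ 100 * exp 16 * (2 + ∑ l ∈ D.primeFactors, (l : ℝ) ^ (-(3 / 4) : ℝ)) := by
  classical
  set σ := ∑ l ∈ D.primeFactors, (l : ℝ) ^ (-(3 / 4) : ℝ) with hσ
  have hσ0 : 0 ≤ σ := sum_nonneg fun _ _ => by positivity
  set u := 2 + σ with hu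
  have hu2 : 2 ≤ u := by linarith
  have hu4 : 2 ≤ u ^ 4 := hu2.trans (le_self_pow₀ (by linarith) (by norm_num))
  set z := ⌈u ^ 4⌉₊ with hz
  have hz1 : u ^ 4 ≤ z := Nat.le_ceil _
  have hz2 : (z : ℝ) ≤ u ^ 5 := by
    have := (Nat.ceil_lt_add_one (by linarith : 0 ≤ u ^ 4)).le
    nlinarith
  have hz3 : 2 ≤ z := by exact_mod_cast hu4.trans hz1
  have h1 : ∑ l ∈ D.primeFactors, 1 / (l : ℝ) ≤ log (log z) + 8 := by
    rw [← sum_filter_add_sum_filter_not _ (fun l => l ≤ z)]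
    have h2 : ∑ l ∈ D.primeFactors.filter (fun l => l ≤ z), 1 / (l : ℝ) ≤ log (log z) + 7 := by
      refine le_trans (sum_le_sum_of_subset_of_nonneg (fun l hl => ?_) fun _ _ _ => by positivity)
        (sum_inv_primes_le hz3)
      rw [mem_filter] at hl
      exact Nat.mem_primesLE.2 ⟨hl.2, Nat.prime_of_mem_primeFactors hl.1⟩
    have h3 : ∑ l ∈ D.primeFactors.filter (fun l => ¬ l ≤ z), 1 / (l : ℝ) ≤ σ / u := by
      rw [hσ, sum_div]
      refine le_trans (sum_le_sum fun l hl => ?_)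
        (sum_le_sum_of_subset_of_nonneg (filter_subset _ _) fun _ _ _ => by positivity)
      have hl1 : u ^ 4 ≤ l := hz1.trans (by exact_mod_cast (not_le.1 (mem_filter.1 hl).2).le)
      have hl0 : (0 : ℝ) < l := by linarith
      have h4 : u ≤ (l : ℝ) ^ ((1 / 4) : ℝ) := by
        have := rpow_le_rpow (by positivity) hl1 (by norm_num : (0 : ℝ) ≤ 1 / 4)
        rwa [← rpow_natCast, ← rpow_mul (by linarith), show ((4 : ℕ) : ℝ) * (1 / 4) = 1 by norm_num,
          rpow_one] at this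
      have h5 : 1 / (l : ℝ) = (l : ℝ) ^ (-(3 / 4) : ℝ) / (l : ℝ) ^ ((1 / 4) : ℝ) := by
        rw [← rpow_sub hl0, one_div, ← rpow_neg_one]; norm_num
      rw [h5]
      gcongr
    have h4 : σ / u ≤ 1 := by rw [div_le_one (by linarith)]; linarith
    linarith
  have hlz : 0 < log z := log_pos (by exact_mod_cast hz3)
  have h2 : ew D ≤ exp 8 * log z := by
    unfold ew
    refine (exp_le_exp.2 h1).trans (le_of_eq ?_)
    rw [exp_add, exp_log hlz, mul_comm]
  have h3 : log z ≤ 10 * √u := by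
    have h4 : log z ≤ log (u ^ 5) := log_le_log (by positivity) hz2
    have h5 : log u = 2 * log √u := by rw [log_sqrt (by linarith)]; ring
    have h6 := log_le_sub_one_of_pos (sqrt_pos.2 (by linarith : 0 < u))
    rw [log_pow] at h4
    push_cast at h4
    linarith
  calc ew D ^ 2 ≤ (exp 8 * (10 * √u)) ^ 2 := by
        have := (ew_pos D).le
        gcongr
        exact h2.trans (by gcongr)
    _ = _ := by
        rw [mul_pow, mul_pow, sq_sqrt (by linarith), ← exp_nat_mul]; norm_num; ring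

theorem sigma_le {D Y : ℕ} (hD : D ≠ 0) {L : ℝ} (hL : 1 ≤ L) (hDL : log D ≤ L) (hY : L ^ 2 ≤ Y) :
    ∑ l ∈ D.primeFactors, (l : ℝ) ^ (-(3 / 4) : ℝ) ≤
      2 + ∑ l ∈ Nat.primesLE Y, if l ∣ D then (l : ℝ) ^ (-(3 / 4) : ℝ) else 0 := by
  classical
  rw [← sum_filter_add_sum_filter_not _ (fun l => l ≤ Y), add_comm, ← sum_filter]
  refine add_le_add ?_ (sum_le_sum_of_subset_of_nonneg (fun l hl => ?_) fun _ _ _ => by positivity)
  · calc _ ≤ ∑ l ∈ D.primeFactors.filter (fun l => ¬ l ≤ Y), 2 / L * log l := by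
          refine sum_le_sum fun l hl => ?_
          rw [mem_filter] at hl
          have h1 : L ^ 2 ≤ l := hY.trans (by exact_mod_cast (not_le.1 hl.2).le)
          have h2 := one_half_le_log (Nat.prime_of_mem_primeFactors hl.1).two_le
          have h3 : (l : ℝ) ^ (-(3 / 4) : ℝ) ≤ 1 / L := by
            calc _ ≤ (L ^ 2) ^ (-(3 / 4) : ℝ) :=
                  rpow_le_rpow_of_nonpos (by positivity) h1 (by norm_num)
              _ = L ^ (-(3 / 2) : ℝ) := by
                  rw [← rpow_natCast, ← rpow_mul (by linarith)]; norm_num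
              _ ≤ L ^ (-1 : ℝ) := rpow_le_rpow_of_exponent_le hL (by norm_num)
              _ = _ := by rw [rpow_neg_one, one_div]
          have h4 : 0 < 1 / L := by positivity
          have : 2 / L * log l = 1 / L * (2 * log l) := by ring
          nlinarith
      _ ≤ 2 / L * L := by
          rw [← mul_sum]
          refine mul_le_mul_of_nonneg_left ?_ (by positivity)
          exact (sum_le_sum_of_subset_of_nonneg (filter_subset _ _)
            fun l _ _ => log_natCast_nonneg l).trans ((sum_log_primeFactors_le hD).trans hDL)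
      _ = 2 := by field_simp
  · simp only [mem_filter, Nat.mem_primesLE] at hl ⊢
    exact ⟨⟨hl.2, Nat.prime_of_mem_primeFactors hl.1⟩, Nat.dvd_of_mem_primeFactors hl.1⟩

end Pool.Agent.P.MP_0993da_nt
end

-- part Pool.Agent.P.MP_0993da_nt.Coll
section

/-!
The residues `i - a / p_i` modulo a small prime rarely collide.
-/

namespace Pool.Agent.P.MP_0993da_nt

open Finset Real Pool.Agent.Lib.Sieve

theorem pairs_eq {κ : Type*} [DecidableEq κ] (I : Finset ℕ) (f : ℕ → κ) (K : Finset κ)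
    (hK : ∀ i ∈ I, f i ∈ K) :
    ((I ×ˢ I).filter (fun x => f x.1 = f x.2)).card =
      ∑ c ∈ K, (I.filter (fun i => f i = c)).card ^ 2 := by
  rw [card_eq_sum_card_fiberwise (f := fun x => f x.1) (t := K)
    (fun x hx => hK _ (mem_product.1 (mem_filter.1 hx).1).1)]
  refine sum_congr rfl fun c _ => ?_
  rw [sq, ← card_product]
  congr 1
  ext x
  simp only [mem_filter, mem_product]
  constructor
  · rintro ⟨⟨h1, h2⟩, h3⟩; exact ⟨⟨h1.1, h3⟩, h1.2, h2 ▸ h3⟩
  · rintro ⟨⟨h1, h2⟩, h3, h4⟩; exact ⟨⟨⟨h1, h3⟩, h2.trans h4.symm⟩, h2⟩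

theorem blocks {κ : Type*} [DecidableEq κ] (I : Finset ℕ) (f : ℕ → κ) (g : ℕ → ℕ) (nb : ℕ)
    (hg : ∀ i ∈ I, g i < nb) :
    ((I ×ˢ I).filter (fun x => f x.1 = f x.2)).card ≤
      nb * ((I ×ˢ I).filter (fun x => (f x.1, g x.1) = (f x.2, g x.2))).card := by
  rw [pairs_eq I f (I.image f) (fun i hi => mem_image_of_mem f hi),
    pairs_eq I (fun i => (f i, g i)) (I.image f ×ˢ range nb)
      (fun i hi => mem_product.2 ⟨mem_image_of_mem f hi, mem_range.2 (hg i hi)⟩),
    sum_product, mul_sum]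
  refine sum_le_sum fun c _ => ?_
  rw [card_eq_sum_card_fiberwise (f := g) (t := range nb)
    (fun i hi => mem_range.2 (hg i (mem_filter.1 hi).1))]
  refine sq_sum_le_card_mul_sum_sq.trans (le_of_eq ?_)
  rw [card_range]
  congr 1
  refine sum_congr rfl fun b _ => ?_
  simp only [filter_filter, Prod.mk.injEq]

theorem same_block {κ : Type*} [DecidableEq κ] (A B J : ℕ) (hJ : 0 < J) (f : ℕ → κ) :
    ((Ico A B ×ˢ Ico A B).filter
      (fun x => (f x.1, (x.1 - A) / J) = (f x.2, (x.2 - A) / J))).card ≤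
      2 * ∑ j ∈ range J, ((Ico A B).filter (fun i => i + j < B ∧ f i = f (i + j))).card := by
  set G := (range J).sigma (fun j => (Ico A B).filter (fun i => i + j < B ∧ f i = f (i + j)))
  have h1 : (Ico A B ×ˢ Ico A B).filter
      (fun x => (f x.1, (x.1 - A) / J) = (f x.2, (x.2 - A) / J)) ⊆
      G.image (fun y => (y.2, y.2 + y.1)) ∪ G.image (fun y => (y.2 + y.1, y.2)) := by
    rintro ⟨i, i'⟩ hx
    simp only [mem_filter, mem_product, mem_Ico, Prod.mk.injEq] at hx
    obtain ⟨⟨h1, h2⟩, h3, h4⟩ := hx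
    have e1 := Nat.div_add_mod (i - A) J
    have e2 := Nat.div_add_mod (i' - A) J
    have e3 := Nat.mod_lt (i - A) hJ
    have e4 := Nat.mod_lt (i' - A) hJ
    rw [h4] at e1
    rcases le_total i i' with h | h
    · refine mem_union_left _ (mem_image.2 ⟨⟨i' - i, i⟩, ?_, by simp [h]⟩)
      simp only [G, mem_sigma, mem_range, mem_filter, mem_Ico, Nat.add_sub_cancel' h]
      exact ⟨by omega, h1, h2.2, h3⟩
    · refine mem_union_right _ (mem_image.2 ⟨⟨i - i', i'⟩, ?_, by simp [h]⟩)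
      simp only [G, mem_sigma, mem_range, mem_filter, mem_Ico, Nat.add_sub_cancel' h]
      exact ⟨by omega, h2, h1.2, h3.symm⟩
  refine (card_le_card h1).trans ((card_union_le _ _).trans ?_)
  rw [← card_sigma, two_mul]
  exact add_le_add card_image_le card_image_le

/-- The primes in increasing order, starting from index zero. -/
noncomputable def pr (i : ℕ) : ℕ := Nat.nth Nat.Prime i

theorem pr_prime (i : ℕ) : (pr i).Prime := Nat.prime_nth_prime i

theorem pr_mono : StrictMono pr := Nat.nth_strictMono Nat.infinite_setOfPred_prime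

theorem far_le {A B X j H : ℕ} (hX : ∀ i ∈ Ico A B, pr i ≤ X) :
    ((Ico A B).filter (fun i => i + j < B ∧ pr i + H < pr (i + j))).card * H ≤ j * X := by
  set F := (Ico A B).filter (fun i => i + j < B ∧ pr i + H < pr (i + j))
  have hF : F ⊆ Ico A (B - j) := by
    intro i hi
    simp only [F, mem_filter, mem_Ico] at hi ⊢
    omega
  have h1 : ∑ i ∈ Ico A (B - j), pr i + F.card * H ≤ ∑ i ∈ Ico A (B - j), pr (i + j) := by
    have : F.card * H = ∑ i ∈ Ico A (B - j), if i ∈ F then H else 0 := by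
      rw [← sum_filter, filter_mem_eq_inter, inter_eq_right.2 hF, sum_const, smul_eq_mul]
    rw [this, ← sum_add_distrib]
    refine sum_le_sum fun i _ => ?_
    split_ifs with h
    · exact (mem_filter.1 h).2.2.le
    · exact pr_mono.monotone (Nat.le_add_right _ _)
  have h2 : ∑ i ∈ Ico A (B - j), pr (i + j) ≤ ∑ i ∈ Ico A (B - j), pr i + j * X := by
    rw [sum_Ico_add' pr]
    have h3 : Ico (A + j) (B - j + j) ⊆ Ico A (B - j) ∪ (Ico (B - j) B ∩ Ico A B) := by
      intro i hi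
      simp only [mem_union, mem_inter, mem_Ico] at hi ⊢
      omega
    refine (sum_le_sum_of_subset h3).trans ?_
    refine (le_add_of_nonneg_right (Nat.zero_le _)).trans (sum_union_inter.le.trans ?_)
    refine Nat.add_le_add_left ?_ _
    refine (sum_le_card_nsmul _ _ X fun i hi => hX i (mem_inter.1 hi).2).trans ?_
    rw [smul_eq_mul]
    refine Nat.mul_le_mul_right _ ((card_le_card inter_subset_left).trans ?_)
    rw [Nat.card_Ico]; omega
  omega

theorem roots_le {l : ℕ} (hl : l.Prime) {j : ℤ} (hj : ¬ (l : ℤ) ∣ j) (u v : ℤ) :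
    ((range l).filter (fun r : ℕ => (l : ℤ) ∣ j * r ^ 2 + u * r + v)).card ≤ 2 := by
  have := Fact.mk hl
  have hj' : (j : ZMod l) ≠ 0 := fun h => hj ((ZMod.intCast_zmod_eq_zero_iff_dvd j l).1 h)
  set R := (range l).filter (fun r : ℕ => (l : ℤ) ∣ j * r ^ 2 + u * r + v)
  have hR : ∀ r ∈ R, (j : ZMod l) * r ^ 2 + u * r + v = 0 := by
    intro r hr
    have := (ZMod.intCast_zmod_eq_zero_iff_dvd _ l).2 (mem_filter.1 hr).2
    push_cast at this
    exact this
  rcases R.eq_empty_or_nonempty with h | ⟨r0, h0⟩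
  · simp [h]
  refine le_trans (card_le_card_of_injOn (fun r : ℕ => (r : ZMod l))
    (t := {(r0 : ZMod l), -(u : ZMod l) / j - r0}) ?_ ?_) card_le_two
  · intro r hr
    have h1 := hR r hr
    have h2 := hR r0 h0
    simp only [coe_insert, coe_singleton, Set.mem_insert_iff, Set.mem_singleton_iff]
    have h3 : ((r : ZMod l) - r0) * (j * (r + r0) + u) = 0 := by linear_combination h1 - h2
    rcases mul_eq_zero.1 h3 with h4 | h4
    · exact Or.inl (sub_eq_zero.1 h4)
    · right; field_simp; linear_combination h4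
  · intro r hr r' hr' h
    have h1 := mem_range.1 (mem_filter.1 hr).1
    have h2 := mem_range.1 (mem_filter.1 hr').1
    have := congrArg ZMod.val h
    simp only at this
    rwa [ZMod.val_cast_of_lt h1, ZMod.val_cast_of_lt h2] at this

theorem near_le (a : ℤ) {P l j h : ℕ} (hl : l.Prime) (hj : ¬ l ∣ j) (hh : h ≠ 0)
    (hT : 2 ^ 120 ≤ 4 * P / l + 1) :
    (((Ioc P (4 * P)).filter (fun p : ℕ => p.Prime ∧ (p + h).Prime ∧
      (l : ℤ) ∣ j * p ^ 2 + j * h * p + a * h)).card : ℝ) ≤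
      8 * C0 * ew h ^ 2 * ((4 * P / l + 1 : ℕ) / log (4 * P / l + 1 : ℕ) ^ 2) := by
  set T := 4 * P / l + 1 with hTd
  have hTP : T ≤ 2 * P + 1 := by
    have : 4 * P / l ≤ 4 * P / 2 := Nat.div_le_div_left hl.two_le (by norm_num)
    omega
  set R := (range l).filter (fun r : ℕ => (l : ℤ) ∣ j * r ^ 2 + j * h * r + a * h)
  set G := R.sigma (fun r => (range T).filter
    (fun t : ℕ => Big T (l * t + r) ∧ Big T (l * t + (r + h))))
  have h1 : ((Ioc P (4 * P)).filter (fun p : ℕ => p.Prime ∧ (p + h).Prime ∧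
      (l : ℤ) ∣ j * p ^ 2 + j * h * p + a * h)).card ≤ G.card := by
    refine card_le_card_of_injOn (fun p => ⟨p % l, p / l⟩) ?_ ?_
    · intro p hp
      simp only [coe_filter, Set.mem_ofPred_eq, mem_Ioc] at hp
      obtain ⟨⟨h1, h2⟩, h3, h4, h5⟩ := hp
      have e : (l : ℤ) * (p / l : ℕ) + (p % l : ℕ) = p := by exact_mod_cast Nat.div_add_mod p l
      have e' : (l : ℤ) * (p / l : ℕ) + ((p % l : ℕ) + h) = (p + h : ℕ) := by
        rw [← add_assoc, e]; push_cast; rfl
      simp only [G, R, mem_coe, mem_sigma, mem_filter, mem_range]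
      refine ⟨⟨Nat.mod_lt _ hl.pos, ?_⟩, Nat.lt_succ_of_le (Nat.div_le_div_right h2), ?_, ?_⟩
      · rw [← e] at h5
        generalize ((p / l : ℕ) : ℤ) = t at h5
        generalize ((p % l : ℕ) : ℤ) = r at h5 ⊢
        have := dvd_sub h5 (dvd_mul_right (l : ℤ) (j * l * t ^ 2 + 2 * j * t * r + j * h * t))
        rwa [show (j : ℤ) * (l * t + r) ^ 2 + j * h * (l * t + r) + a * h -
          l * (j * l * t ^ 2 + 2 * j * t * r + j * h * t) = j * r ^ 2 + j * h * r + a * h by ring]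
          at this
      · rw [e]; exact ⟨by simpa using h3, by omega⟩
      · rw [e']; exact ⟨by rw [Int.toNat_natCast]; exact h4, by omega⟩
    · intro p _ p' _ e
      simp only [Sigma.mk.injEq, heq_eq_eq] at e
      rw [← Nat.div_add_mod p l, ← Nat.div_add_mod p' l, e.1, e.2]
  have hC := C0_pos
  have h2 : (G.card : ℝ) ≤ R.card * (C0 * (2 * ew h) ^ 2 * (T / log T ^ 2)) := by
    rw [card_sigma, ← nsmul_eq_mul]
    push_cast
    refine sum_le_card_nsmul _ _ _ fun r _ => ?_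
    refine (pair_gen hT (mul_ne_zero hl.ne_zero hh) l r l (r + h) fun q _ hq => ?_).trans ?_
    · have h3 : ¬ (q : ℤ) ∣ l := fun h3 => hq ((Int.natCast_dvd_natCast.1 h3).mul_right _)
      refine ⟨h3, h3, fun h4 => hq (Int.natCast_dvd_natCast.1 ?_)⟩
      push_cast
      rwa [show (l : ℤ) * (r + h) - l * r = l * h by ring] at h4
    · have := (ew_pos (l * h)).le
      gcongr
      exact ew_prime_mul hl hh
  have h3 : (R.card : ℝ) ≤ 2 := by
    exact_mod_cast roots_le hl (fun h => hj (Int.natCast_dvd_natCast.1 h)) _ _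
  calc _ ≤ (G.card : ℝ) := by exact_mod_cast h1
    _ ≤ 2 * (C0 * (2 * ew h) ^ 2 * (T / log T ^ 2)) := h2.trans (by gcongr)
    _ = _ := by ring

end Pool.Agent.P.MP_0993da_nt
end

-- part Pool.Agent.P.MP_0993da_nt.Sec
section

/-!
The collision bound and the second moment of the representation function.
-/

namespace Pool.Agent.P.MP_0993da_nt

open Finset Real Pool.Agent.Lib.Sieve

set_option maxHeartbeats 400000

/-- The size conditions on the parameters. -/
structure Par (a : ℤ) (N P A B : ℕ) (L : ℝ) : Prop where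
  big : 2 ^ 240 ≤ P
  aP : a.natAbs ≤ P
  PN : P ^ 6 ≤ N
  LP : 10 ^ 21 * L ^ 14 ≤ P
  Lup : L ≤ 14 * log P
  Llo : 1 + log ((N : ℝ) * P) ≤ L
  mem : ∀ i ∈ Ico A B, P < pr i ∧ pr i ≤ 4 * P
  many : (P : ℝ) ≤ (B - A : ℕ) * L

/-- The determinant of two of the linear forms. -/
noncomputable def Del (a : ℤ) (i i' : ℕ) : ℤ :=
  a * ((pr i' : ℤ) - pr i) + (pr i : ℤ) * pr i' * ((i' : ℤ) - i)

/-- The residue class of `n` excluded by the form with index `i`, up to a shift. -/
noncomputable def cls (a : ℤ) (l i : ℕ) : ZMod l := (i : ZMod l) - a * ((pr i : ℕ) : ZMod l)⁻¹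

theorem cls_eq_iff (a : ℤ) {l i i' : ℕ} (hl : l.Prime) (hi : l < pr i) (hi' : l < pr i') :
    cls a l i = cls a l i' ↔ (l : ℤ) ∣ Del a i i' := by
  have := Fact.mk hl
  have h0 : ∀ k, l < pr k → ((pr k : ℕ) : ZMod l) ≠ 0 := fun k hk h =>
    hk.ne ((Nat.prime_dvd_prime_iff_eq hl (pr_prime k)).1 ((ZMod.natCast_eq_zero_iff _ _).1 h))
  have h1 := h0 i hi
  have h2 := h0 i' hi'
  rw [← ZMod.intCast_zmod_eq_zero_iff_dvd]
  unfold cls Del
  push_cast
  constructor
  · intro h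
    field_simp at h
    linear_combination -h
  · intro h
    field_simp
    linear_combination -h

variable {a : ℤ} {N P A B : ℕ} {L : ℝ}

theorem Par.P1 (h : Par a N P A B L) : (1000 : ℝ) ≤ P := by
  have : 1000 ≤ P := le_trans (by norm_num) h.big
  exact_mod_cast this

theorem Par.NP (h : Par a N P A B L) : (P : ℝ) ^ 6 ≤ N := by exact_mod_cast h.PN

theorem Par.N1 (h : Par a N P A B L) : (P : ℝ) ≤ N :=
  (le_self_pow₀ (by linarith [h.P1]) (by norm_num)).trans h.NP

theorem Par.L1 (h : Par a N P A B L) : 1 ≤ L := by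
  have : 0 ≤ log ((N : ℝ) * P) := log_nonneg (by nlinarith [h.P1, h.N1])
  linarith [h.Llo]

theorem Par.ML (h : Par a N P A B L) : 10 ^ 21 * L ^ 13 ≤ (B - A : ℕ) := by
  have h1 := h.L1
  refine le_of_mul_le_mul_right ?_ (by linarith : 0 < L)
  calc _ = 10 ^ 21 * L ^ 14 := by ring
    _ ≤ _ := h.LP.trans h.many

/-- The constant in the collision bound. -/
noncomputable def C2 : ℝ := 10 ^ 6 * C0 * exp 15

theorem C2_pos : 0 < C2 := by have := C0_pos; unfold C2; positivity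

theorem shift_le (h : Par a N P A B L) {l j H : ℕ} (hl : l.Prime) (hlL : (l : ℝ) ≤ 2 * L ^ 2)
    (hj0 : 0 < j) (hj : j < l) (hH : 0 < H) :
    (((Ico A B).filter (fun i => i + j < B ∧ cls a l i = cls a l (i + j))).card : ℝ) ≤
      j * (4 * P) / H + C2 / 10 * (H * P / (l * L ^ 2)) := by
  classical
  have hP := h.P1
  have hL := h.L1
  have hl2 : (2 : ℝ) ≤ l := by exact_mod_cast hl.two_le
  have hll : (l : ℝ) ^ 2 ≤ P := by
    have h1 : L ^ 4 ≤ L ^ 14 := pow_le_pow_right₀ hL (by norm_num)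
    have h2 : (l : ℝ) ^ 2 ≤ (2 * L ^ 2) ^ 2 := by gcongr
    have h3 : 0 ≤ L ^ 14 := by positivity
    nlinarith [h.LP]
  have hlP : l ≤ P := by
    have : (l : ℝ) ≤ P := by nlinarith
    exact_mod_cast this
  set T := 4 * P / l + 1 with hT
  have hT1 : (4 * P : ℝ) / l ≤ T := by
    rw [div_le_iff₀ (by linarith)]
    have := Nat.lt_mul_div_succ (4 * P) hl.pos
    rw [mul_comm l] at this
    exact_mod_cast this.le
  have hT2 : (T : ℝ) ≤ 8 * P / l := by
    have h1 : ((4 * P / l : ℕ) : ℝ) ≤ (4 * P : ℕ) / l := Nat.cast_div_le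
    have h2 : (1 : ℝ) ≤ 4 * P / l := by rw [le_div_iff₀ (by linarith)]; nlinarith
    have : (8 * P / l : ℝ) = 4 * P / l + 4 * P / l := by ring
    rw [hT]; push_cast at h1 ⊢; linarith
  have hT3 : (P : ℝ) ≤ (T : ℝ) ^ 2 := by
    have h1 : (P : ℝ) ≤ (4 * P / l) ^ 2 := by
      rw [div_pow, le_div_iff₀ (by positivity)]; nlinarith
    exact h1.trans (by gcongr)
  have hT4 : 2 ^ 120 ≤ T := by
    have h1 : P ≤ T ^ 2 := by exact_mod_cast hT3
    by_contra h2
    have h3 : T ^ 2 < (2 ^ 120) ^ 2 := Nat.pow_lt_pow_left (not_le.1 h2) (by norm_num)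
    rw [← pow_mul] at h3
    exact absurd (h.big.trans h1) (not_le.2 h3)
  have hT5 : L / 28 ≤ log T := by
    have := log_le_log (by linarith) hT3
    rw [log_pow] at this
    push_cast at this
    linarith [h.Lup]
  have hT6 : (T : ℝ) / log T ^ 2 ≤ 6272 * (P / (l * L ^ 2)) := by
    calc _ ≤ (8 * P / l) / (L / 28) ^ 2 := by gcongr
      _ = _ := by field_simp; norm_num
  set F := (Ico A B).filter (fun i => i + j < B ∧ pr i + H < pr (i + j))
  set G := (Ioc 0 H).sigma (fun k => (Ioc P (4 * P)).filter (fun p : ℕ => p.Prime ∧ (p + k).Prime ∧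
      (l : ℤ) ∣ j * p ^ 2 + j * k * p + a * k))
  set E := (Ico A B).filter (fun i => i + j < B ∧ cls a l i = cls a l (i + j))
  have h1 : (E \ F).card ≤ G.card := by
    refine card_le_card_of_injOn (fun i => ⟨pr (i + j) - pr i, pr i⟩) ?_ ?_
    · intro i hi
      simp only [E, F, coe_sdiff, coe_filter, Set.mem_sdiff, Set.mem_ofPred_eq, not_and] at hi
      obtain ⟨⟨h1, h2, h3⟩, h4⟩ := hi
      have h5 := not_lt.1 (h4 h1 h2)
      have h6 : pr i < pr (i + j) := pr_mono (by omega)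
      have h7 := h.mem i h1
      rw [cls_eq_iff a hl (by omega) (by omega)] at h3
      simp only [G, mem_coe, mem_sigma, mem_filter, mem_Ioc, Nat.add_sub_cancel' h6.le]
      refine ⟨⟨by omega, by omega⟩, h7, pr_prime _, pr_prime _, ?_⟩
      rw [Nat.cast_sub h6.le]
      refine h3.trans (dvd_of_eq ?_)
      unfold Del
      push_cast
      ring
    · intro i _ i' _ e
      simp only [Sigma.mk.injEq, heq_eq_eq] at e
      exact pr_mono.injective e.2
  have h2 : (F.card : ℝ) ≤ j * (4 * P) / H := by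
    rw [le_div_iff₀ (by exact_mod_cast hH)]
    exact_mod_cast far_le (X := 4 * P) (fun i hi => (h.mem i hi).2)
  have hC := C0_pos
  have h3 : (G.card : ℝ) ≤ C2 / 10 * (H * P / (l * L ^ 2)) := by
    rw [card_sigma]
    push_cast
    calc _ ≤ ∑ k ∈ Ioc 0 H, 8 * C0 * ew k ^ 3 * (6272 * (P / (l * L ^ 2))) := by
          refine sum_le_sum fun k hk => (near_le a hl (Nat.not_dvd_of_pos_of_lt hj0 hj)
            (mem_Ioc.1 hk).1.ne' hT4).trans ?_
          have := pow_le_pow_right₀ (one_le_ew k) (by norm_num : 2 ≤ 3)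
          have := (ew_pos k).le
          gcongr
      _ ≤ 8 * C0 * (exp 15 * H) * (6272 * (P / (l * L ^ 2))) := by
          rw [← sum_mul, ← mul_sum]
          gcongr
          exact sum_ew_cube_le H
      _ = 50176 * (C0 * exp 15 * (H * P / (l * L ^ 2))) := by ring
      _ ≤ 100000 * (C0 * exp 15 * (H * P / (l * L ^ 2))) := by gcongr; norm_num
      _ = _ := by unfold C2; ring
  have h4 : (E.card : ℝ) ≤ F.card + (E \ F).card := by
    exact_mod_cast (card_le_card (subset_union_right.trans union_sdiff_self_eq_union.ge)).trans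
      (card_union_le _ _)
  have h5 : ((E \ F).card : ℝ) ≤ G.card := by exact_mod_cast h1
  linarith

theorem coll (h : Par a N P A B L) {l : ℕ} (hl : l.Prime) (hlL : (l : ℝ) ≤ 2 * L ^ 2) :
    (((Ico A B ×ˢ Ico A B).filter (fun x => (l : ℤ) ∣ Del a x.1 x.2)).card : ℝ) ≤
      8 * (5 + C2) * ((B - A : ℕ) : ℝ) ^ 2 * (l : ℝ) ^ (-(1 / 3) : ℝ) := by
  classical
  have hP := h.P1
  have hL := h.L1
  have hC := C2_pos
  set M := B - A with hM
  obtain ⟨J, hJ1, hJ2, hJ3⟩ : ∃ J : ℕ, 1 ≤ J ∧ J ^ 3 ≤ l ∧ l < (J + 1) ^ 3 :=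
    ⟨Nat.nthRoot 3 l, (Nat.le_nthRoot_iff (by norm_num)).2 (by simpa using hl.one_le),
      Nat.pow_nthRoot_le_iff.2 (Or.inl (by norm_num)), Nat.lt_pow_nthRoot_add_one (by norm_num) l⟩
  have hJl : J ≤ l := (Nat.le_self_pow (by norm_num) J).trans hJ2
  have hJ0 : (1 : ℝ) ≤ J := by exact_mod_cast hJ1
  have hl0 : (0 : ℝ) < l := by exact_mod_cast hl.pos
  have hlM : (l : ℝ) ≤ M := by
    have h1 : L ^ 2 ≤ L ^ 13 := pow_le_pow_right₀ hL (by norm_num)
    have h3 : 0 ≤ L ^ 13 := by positivity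
    linarith [h.ML]
  have hlP : l ≤ P := by
    have h1 : L ^ 2 ≤ L ^ 14 := pow_le_pow_right₀ hL (by norm_num)
    have h3 : 0 ≤ L ^ 14 := by positivity
    have : (l : ℝ) ≤ P := by linarith [h.LP]
    exact_mod_cast this
  have hPL : P / L ≤ M := by rw [div_le_iff₀ (by linarith)]; exact h.many
  have e : (Ico A B ×ˢ Ico A B).filter (fun x => (l : ℤ) ∣ Del a x.1 x.2) =
      (Ico A B ×ˢ Ico A B).filter (fun x => cls a l x.1 = cls a l x.2) := by
    refine filter_congr fun x hx => (cls_eq_iff a hl ?_ ?_).symm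
    · exact hlP.trans_lt (h.mem _ (mem_product.1 hx).1).1
    · exact hlP.trans_lt (h.mem _ (mem_product.1 hx).2).1
  have h1 := (blocks (Ico A B) (cls a l) (fun i => (i - A) / J) (M / J + 1) (fun i hi =>
    Nat.lt_succ_of_le (Nat.div_le_div_right (by have := (mem_Ico.1 hi).2; omega)))).trans
    (Nat.mul_le_mul_left _ (same_block A B J hJ1 (cls a l)))
  set H := J ^ 2 * ⌈L⌉₊ with hH
  have hc1 : L ≤ ⌈L⌉₊ := Nat.le_ceil L
  have hc2 : (⌈L⌉₊ : ℝ) ≤ 2 * L := by linarith [Nat.ceil_lt_add_one (by linarith : 0 ≤ L)]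
  have hH0 : 0 < H := Nat.mul_pos (by positivity) (Nat.ceil_pos.2 (by linarith))
  have h2 : ∀ j ∈ range J,
      (((Ico A B).filter (fun i => i + j < B ∧ cls a l i = cls a l (i + j))).card : ℝ) ≤
        (if j = 0 then (M : ℝ) else 0) + (4 + C2) * M / J := by
    intro j hj
    rw [mem_range] at hj
    split_ifs with h0
    · have : (((Ico A B).filter (fun i => i + j < B ∧ cls a l i = cls a l (i + j))).card : ℝ) ≤
          M := by exact_mod_cast (card_filter_le _ _).trans (Nat.card_Ico A B).le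
      have : 0 ≤ (4 + C2) * M / J := by positivity
      linarith
    · refine (shift_le h hl hlL (by omega) (by omega) hH0).trans ?_
      have h3 : (j : ℝ) * (4 * P) / H ≤ 4 * M / J := by
        have : (j : ℝ) ≤ J := by exact_mod_cast hj.le
        calc _ ≤ (J : ℝ) * (4 * P) / (J ^ 2 * L) := by rw [hH]; push_cast; gcongr
          _ = 4 * (P / L) / J := by field_simp
          _ ≤ _ := by gcongr
      have h4 : C2 / 10 * (H * P / (l * L ^ 2)) ≤ C2 * M / J := by
        have : (J : ℝ) ^ 3 ≤ l := by exact_mod_cast hJ2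
        calc _ ≤ C2 / 2 * (J ^ 2 * (2 * L) * P / (J ^ 3 * L ^ 2)) := by
              rw [hH]; push_cast; gcongr; norm_num
          _ = C2 * (P / L) / J := by field_simp
          _ ≤ _ := by gcongr
      have : (4 + C2) * M / J = 4 * M / J + C2 * M / J := by ring
      linarith
  have h3 := sum_le_sum h2
  rw [sum_add_distrib, sum_ite_eq', if_pos (mem_range.2 hJ1), sum_const, card_range,
    nsmul_eq_mul, mul_div_cancel₀ _ (by linarith)] at h3
  have h4 : ((M / J + 1 : ℕ) : ℝ) ≤ 2 * M / J := by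
    have h5 : ((M / J : ℕ) : ℝ) ≤ M / J := Nat.cast_div_le
    have h6 : (1 : ℝ) ≤ M / J := by
      rw [le_div_iff₀ (by linarith)]
      have : (J : ℝ) ≤ l := by exact_mod_cast hJl
      linarith
    have : (2 * M / J : ℝ) = M / J + M / J := by ring
    push_cast; linarith
  have h5 : 1 / (J : ℝ) ≤ 2 * (l : ℝ) ^ (-(1 / 3) : ℝ) := by
    have h6 : (l : ℝ) ≤ (2 * J) ^ 3 := by
      have : l ≤ (2 * J) ^ 3 := hJ3.le.trans (Nat.pow_le_pow_left (by omega) _)
      exact_mod_cast this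
    have h7 := rpow_le_rpow_of_nonpos hl0 h6 (by norm_num : (-(1 / 3) : ℝ) ≤ 0)
    rw [← rpow_natCast, ← rpow_mul (by linarith),
      show ((3 : ℕ) : ℝ) * (-(1 / 3)) = -1 by norm_num, rpow_neg_one] at h7
    have : 1 / (J : ℝ) = 2 * (2 * (J : ℝ))⁻¹ := by field_simp
    linarith
  rw [e]
  calc _ ≤ ((M / J + 1 : ℕ) : ℝ) * (2 * ∑ j ∈ range J,
        (((Ico A B).filter (fun i => i + j < B ∧ cls a l i = cls a l (i + j))).card : ℝ)) := by
        exact_mod_cast h1
    _ ≤ (2 * M / J) * (2 * (M + (4 + C2) * M)) :=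
        mul_le_mul h4 (mul_le_mul_of_nonneg_left h3 (by norm_num))
          (mul_nonneg (by norm_num) (sum_nonneg fun _ _ => Nat.cast_nonneg _)) (by positivity)
    _ = 4 * (5 + C2) * M ^ 2 * (1 / J) := by ring
    _ ≤ 4 * (5 + C2) * M ^ 2 * (2 * (l : ℝ) ^ (-(1 / 3) : ℝ)) := by gcongr
    _ = _ := by ring

theorem Del_ne (h : Par a N P A B L) {i i' : ℕ} (hi : i ∈ Ico A B) (hi' : i' ∈ Ico A B)
    (hne : i ≠ i') : (Del a i i').natAbs ≠ 0 ∧ log (Del a i i').natAbs ≤ L := by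
  have key : ∀ i ∈ Ico A B, ∀ i' ∈ Ico A B, i < i' → 0 < Del a i i' ∧ Del a i i' ≤ N * P := by
    intro i hi i' hi' hlt
    obtain ⟨h1, h2⟩ := h.mem i hi
    obtain ⟨h3, h4⟩ := h.mem i' hi'
    have h5 : pr i < pr i' := pr_mono hlt
    have h6 : i' ≤ pr i' := pr_mono.le_apply
    have h7 := h.aP
    have h8 : (P : ℤ) ^ 6 ≤ N := by exact_mod_cast h.PN
    have h9 : (1000 : ℤ) ≤ P := by exact_mod_cast h.P1
    unfold Del
    generalize pr i = p at *
    generalize pr i' = q at *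
    have e1 : -(P : ℤ) * (q - p) ≤ a * (q - p) := mul_le_mul_of_nonneg_right (by omega) (by omega)
    have e2 : a * ((q : ℤ) - p) ≤ P * (4 * P) := by
      have : a * ((q : ℤ) - p) ≤ P * (q - p) := mul_le_mul_of_nonneg_right (by omega) (by omega)
      have : (P : ℤ) * (q - p) ≤ P * (4 * P) := mul_le_mul_of_nonneg_left (by omega) (by omega)
      omega
    have e3 : (p : ℤ) * q * 1 ≤ p * q * (i' - i) :=
      mul_le_mul_of_nonneg_left (by omega) (by positivity)
    have e4 : (P : ℤ) * q ≤ p * q := mul_le_mul_of_nonneg_right (by omega) (by positivity)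
    have e5 : (p : ℤ) * q * (i' - i) ≤ (4 * P) * (4 * P) * (4 * P) := by
      gcongr <;> omega
    have e6 : (0 : ℤ) < P * p := mul_pos (by omega) (by omega)
    have e7 : (P : ℤ) ^ 6 * P ≤ N * P := by gcongr
    have e8 : (1000 : ℤ) * (P : ℤ) ^ 3 ≤ (P : ℤ) ^ 6 * P := by
      calc (1000 : ℤ) * (P : ℤ) ^ 3 ≤ (P : ℤ) * (P : ℤ) ^ 3 := by gcongr
        _ = (P : ℤ) ^ 4 := by ring
        _ ≤ (P : ℤ) ^ 7 := pow_le_pow_right₀ (by omega) (by norm_num)
        _ = _ := by ring
    have e9 : (P : ℤ) ^ 2 ≤ P ^ 3 := pow_le_pow_right₀ (by omega) (by norm_num)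
    have e10 : (0 : ℤ) ≤ P ^ 2 := by positivity
    constructor <;> nlinarith
  have h2 : 0 < (Del a i i').natAbs ∧ (Del a i i').natAbs ≤ N * P := by
    have e : Del a i i' = -Del a i' i := by unfold Del; ring
    rcases lt_or_gt_of_ne hne with h1 | h1
    · have := key i hi i' hi' h1; zify; rw [abs_of_pos this.1]; exact this
    · have := key i' hi' i hi h1; zify; rw [e, abs_neg, abs_of_pos this.1]; exact this
  refine ⟨h2.1.ne', ?_⟩
  have : log (Del a i i').natAbs ≤ log ((N : ℝ) * P) :=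
    log_le_log (by exact_mod_cast h2.1) (by exact_mod_cast h2.2)
  linarith [h.Llo]

/-- The constant in the mean value of the singular factors. -/
noncomputable def C3 : ℝ := 100 * exp 16 * (4 + 104 * (5 + C2))

theorem C3_pos : 0 < C3 := by have := C2_pos; unfold C3; positivity

theorem sum_ew_Del (h : Par a N P A B L) :
    ∑ x ∈ (Ico A B ×ˢ Ico A B).filter (fun x => x.1 ≠ x.2), ew (Del a x.1 x.2).natAbs ^ 2 ≤
      C3 * ((B - A : ℕ) : ℝ) ^ 2 := by
  classical
  have hL := h.L1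
  have hC := C2_pos
  set Y := ⌈L ^ 2⌉₊ with hY
  have hL2 : 1 ≤ L ^ 2 := one_le_pow₀ hL
  have hY1 : L ^ 2 ≤ Y := Nat.le_ceil _
  have hY2 : (Y : ℝ) ≤ 2 * L ^ 2 := by linarith [Nat.ceil_lt_add_one (by linarith : 0 ≤ L ^ 2)]
  set M : ℝ := ((B - A : ℕ) : ℝ) with hM
  have h1 : ∑ l ∈ Nat.primesLE Y, ∑ x ∈ Ico A B ×ˢ Ico A B,
      (if l ∣ (Del a x.1 x.2).natAbs then (l : ℝ) ^ (-(3 / 4) : ℝ) else 0) ≤
      8 * (5 + C2) * M ^ 2 * 13 := by
    calc _ ≤ ∑ l ∈ Nat.primesLE Y, 8 * (5 + C2) * M ^ 2 * (l : ℝ) ^ (-(1 + 1 / 12) : ℝ) := by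
          refine sum_le_sum fun l hl => ?_
          rw [Nat.mem_primesLE] at hl
          have hl0 : (0 : ℝ) < l := by exact_mod_cast hl.2.pos
          simp only [← Int.natCast_dvd]
          rw [← sum_filter, sum_const, nsmul_eq_mul]
          refine (mul_le_mul_of_nonneg_right (coll h hl.2
            (le_trans (by exact_mod_cast hl.1) hY2)) (by positivity)).trans (le_of_eq ?_)
          rw [mul_assoc, ← rpow_add hl0]; norm_num [hM]
      _ ≤ _ := by
          rw [← mul_sum]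
          refine mul_le_mul_of_nonneg_left ?_ (by positivity)
          refine le_trans (sum_le_sum_of_subset_of_nonneg (fun l hl => ?_)
            fun _ _ _ => by positivity) ((sum_rpow_le (by norm_num) Y).trans (by norm_num))
          rw [Nat.mem_primesLE] at hl
          exact mem_Ioc.2 ⟨hl.2.pos, hl.1⟩
  calc _ ≤ ∑ x ∈ (Ico A B ×ˢ Ico A B).filter (fun x => x.1 ≠ x.2), 100 * exp 16 *
        (4 + ∑ l ∈ Nat.primesLE Y,
          if l ∣ (Del a x.1 x.2).natAbs then (l : ℝ) ^ (-(3 / 4) : ℝ) else 0) := by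
        refine sum_le_sum fun x hx => (ew_sq_le _).trans ?_
        simp only [mem_filter, mem_product] at hx
        obtain ⟨h2, h3⟩ := Del_ne h hx.1.1 hx.1.2 hx.2
        have := sigma_le h2 hL h3 hY1
        gcongr 100 * exp 16 * ?_
        linarith
    _ ≤ ∑ x ∈ Ico A B ×ˢ Ico A B, 100 * exp 16 * (4 + ∑ l ∈ Nat.primesLE Y,
          if l ∣ (Del a x.1 x.2).natAbs then (l : ℝ) ^ (-(3 / 4) : ℝ) else 0) :=
        sum_le_sum_of_subset_of_nonneg (filter_subset _ _) fun _ _ _ => by positivity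
    _ ≤ 100 * exp 16 * (M * M * 4 + 8 * (5 + C2) * M ^ 2 * 13) := by
        rw [← mul_sum, sum_add_distrib, sum_comm, sum_const, card_product, Nat.card_Ico,
          nsmul_eq_mul, Nat.cast_mul]
        gcongr
    _ = _ := by unfold C3; ring

end Pool.Agent.P.MP_0993da_nt
end

-- part Pool.Agent.P.MP_0993da_nt.Mom
section

/-!
First and second moment of the representation function.
-/

namespace Pool.Agent.P.MP_0993da_nt

open Finset Real Pool.Agent.Lib.Sieve
open ArithmeticFunction hiding log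

set_option maxHeartbeats 400000

/-- The linear form in `n` attached to the index `i`. -/
noncomputable def Lf (a : ℤ) (i n : ℕ) : ℤ := (pr i : ℤ) * n + (a - pr i * (i + 1))

/-- The form with index `i` takes a large prime value at `n`. -/
def Rep (a : ℤ) (N i n : ℕ) : Prop := (Lf a i n).toNat.Prime ∧ (N : ℤ) < Lf a i n

open Classical in
/-- The number of representations. -/
noncomputable def rr (a : ℤ) (N A B n : ℕ) : ℕ := ((Ico A B).filter (fun i => Rep a N i n)).card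

variable {a : ℤ} {N P A B : ℕ} {L : ℝ}

/-- The constant in the second moment. -/
noncomputable def C4 : ℝ := 2 + 288 * C0 * C3

theorem C4_pos : 0 < C4 := by have := C0_pos; have := C3_pos; unfold C4; positivity

theorem second (h : Par a N P A B L) :
    ∑ n ∈ range (N + 1), (rr a N A B n : ℝ) ^ 2 ≤ C4 * (((B - A : ℕ) : ℝ) ^ 2 * N / L ^ 2) := by
  classical
  have hP := h.P1
  have hL := h.L1
  have hN := h.N1
  have hC0 := C0_pos
  set M : ℝ := ((B - A : ℕ) : ℝ) with hM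
  have h1 : ∑ n ∈ range (N + 1), (rr a N A B n : ℝ) ^ 2 = ∑ x ∈ Ico A B ×ˢ Ico A B,
      (((range (N + 1)).filter (fun n => Rep a N x.1 n ∧ Rep a N x.2 n)).card : ℝ) := by
    simp only [rr, card_filter]
    push_cast
    rw [sum_comm]
    refine sum_congr rfl fun n _ => ?_
    rw [sq, sum_mul_sum, sum_product]
    refine sum_congr rfl fun i _ => sum_congr rfl fun i' _ => ?_
    by_cases h1 : Rep a N i n <;> by_cases h2 : Rep a N i' n <;> simp [h1, h2]
  have hT : ((N + 1 : ℕ) : ℝ) / log (N + 1 : ℕ) ^ 2 ≤ 18 * (N / L ^ 2) := by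
    have h2 : log ((P : ℝ) ^ 6) ≤ log (N + 1 : ℕ) :=
      log_le_log (by positivity) (by push_cast; linarith [h.NP])
    rw [log_pow] at h2
    have h3 : 0 ≤ log P := log_natCast_nonneg P
    have h4 : L / 3 ≤ log (N + 1 : ℕ) := by push_cast at h2 ⊢; linarith [h.Lup]
    have h5 : ((N + 1 : ℕ) : ℝ) ≤ 2 * N := by push_cast; linarith
    calc _ ≤ (2 * N) / (L / 3) ^ 2 := by gcongr
      _ = _ := by field_simp; ring
  have hT2 : 2 ^ 120 ≤ N + 1 := by
    have h2 : P ≤ N := by exact_mod_cast hN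
    have := h.big
    omega
  have h2 : ∀ x ∈ (Ico A B ×ˢ Ico A B).filter (fun x => x.1 ≠ x.2),
      (((range (N + 1)).filter (fun n => Rep a N x.1 n ∧ Rep a N x.2 n)).card : ℝ) ≤
        288 * C0 * (N / L ^ 2) * ew (Del a x.1 x.2).natAbs ^ 2 := by
    rintro ⟨i, i'⟩ hx
    simp only [mem_filter, mem_product] at hx
    have hD := (Del_ne h hx.1.1 hx.1.2 hx.2).1
    have hD' := mul_ne_zero (pr_prime i').ne_zero hD
    have h3 := pair_gen hT2 (mul_ne_zero (pr_prime i).ne_zero hD') (pr i) (a - pr i * (i + 1))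
      (pr i') (a - pr i' * (i' + 1)) (fun l _ hl => by
        refine ⟨fun h => hl ((Int.natCast_dvd_natCast.1 h).mul_right _),
          fun h => hl (((Int.natCast_dvd_natCast.1 h).mul_right _).mul_left _),
          fun h => hl (Dvd.dvd.mul_left (Dvd.dvd.mul_left (Int.natCast_dvd.1 ?_) _) _)⟩
        refine (dvd_neg.2 h).trans (dvd_of_eq ?_)
        unfold Del; ring)
    have h4 : ew (pr i * (pr i' * (Del a i i').natAbs)) ≤ 4 * ew (Del a i i').natAbs := by
      linarith [ew_prime_mul (pr_prime i) hD', ew_prime_mul (pr_prime i') hD]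
    have h5 := (ew_pos (pr i * (pr i' * (Del a i i').natAbs))).le
    refine le_trans (Nat.cast_le.2 (card_le_card fun n hn => ?_)) (h3.trans ?_)
    · rw [mem_filter] at hn ⊢
      obtain ⟨h6, ⟨h7, h8⟩, h9, h10⟩ := hn
      simp only [Lf] at h7 h8 h9 h10
      exact ⟨h6, ⟨h7, by push_cast; omega⟩, h9, by push_cast; omega⟩
    · calc _ ≤ C0 * (4 * ew (Del a i i').natAbs) ^ 2 * (18 * (N / L ^ 2)) := by gcongr
        _ = _ := by ring
  have h3 : ∑ x ∈ (Ico A B ×ˢ Ico A B).filter (fun x => ¬ x.1 ≠ x.2),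
      (((range (N + 1)).filter (fun n => Rep a N x.1 n ∧ Rep a N x.2 n)).card : ℝ) ≤
      M * (2 * N) := by
    refine (sum_le_card_nsmul _ _ (2 * N : ℝ) fun x _ => ?_).trans ?_
    · have : (((range (N + 1)).filter (fun n => Rep a N x.1 n ∧ Rep a N x.2 n)).card : ℝ) ≤
          (N + 1 : ℕ) := by exact_mod_cast (card_filter_le _ _).trans (card_range _).le
      push_cast at this; linarith
    · rw [nsmul_eq_mul, hM, ← Nat.card_Ico]
      refine mul_le_mul_of_nonneg_right (Nat.cast_le.2 ?_) (by positivity)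
      refine card_le_card_of_injOn (fun x => x.1)
        (fun x hx => (mem_product.1 (mem_filter.1 hx).1).1) fun x hx y hy e => ?_
      have e1 := not_not.1 (mem_filter.1 hx).2
      have e2 := not_not.1 (mem_filter.1 hy).2
      exact Prod.ext e (e1.symm.trans (e.trans e2))
  have h4 : M * (2 * N) ≤ 2 * (M ^ 2 * N / L ^ 2) := by
    have h5 : L ^ 2 ≤ M := by
      have h1 : L ^ 2 ≤ L ^ 13 := pow_le_pow_right₀ hL (by norm_num)
      have h3 : 0 ≤ L ^ 13 := by positivity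
      linarith [h.ML]
    have h6 : 0 ≤ M * N := by positivity
    rw [← mul_div_assoc, le_div_iff₀ (by positivity)]
    calc _ = 2 * (M * N * L ^ 2) := by ring
      _ ≤ 2 * (M * N * M) := by gcongr
      _ = _ := by ring
  have h5 := sum_le_sum h2
  rw [← mul_sum] at h5
  have h6 := mul_le_mul_of_nonneg_left (sum_ew_Del h)
    (by positivity : 0 ≤ 288 * C0 * (N / L ^ 2))
  rw [h1, ← sum_filter_add_sum_filter_not _ (fun x : ℕ × ℕ => x.1 ≠ x.2)]
  have e : C4 * (M ^ 2 * N / L ^ 2) =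
      288 * C0 * (N / L ^ 2) * (C3 * M ^ 2) + 2 * (M ^ 2 * N / L ^ 2) := by unfold C4; ring
  linarith

theorem one_modulus {p x N : ℕ} (hp : p.Prime) (ha : ¬ (p : ℤ) ∣ a) {L : ℝ} (hx : 1 ≤ x)
    (hL : 1 + log x ≤ L) :
    (x * log 2 - log (x + 1) - x / p * L) / p + ∑ n ∈ Ioc 0 x, Λ n * w a p n ≤
      L * (N / p + 1) + 2 * √x * L +
        L * ((Ioc N x).filter (fun q : ℕ => q.Prime ∧ (p : ℤ) ∣ q - a)).card := by
  classical
  have hl : 0 ≤ log x := log_natCast_nonneg x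
  have hL0 : 0 ≤ L := by linarith
  have hp2 : (2 : ℝ) ≤ p := by exact_mod_cast hp.two_le
  have hΛ : ∀ n ∈ Ioc 0 x, Λ n ≤ L := fun n hn => (le_abs_self _).trans ((abs_vm_le hn).trans hL)
  have h1 : x * log 2 - log (x + 1) ≤ ∑ n ∈ Ioc 0 x, Λ n := by
    have := Chebyshev.psi_ge x
    rwa [Chebyshev.psi, Nat.floor_natCast] at this
  have h2 : ∑ n ∈ Ioc 0 x, (if p ∣ n then L else 0) ≤ x / p * L := by
    rw [← sum_filter, sum_const, nsmul_eq_mul]
    exact mul_le_mul_of_nonneg_right (card_filter_dvd_le x p) hL0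
  have h3 : ∑ n ∈ Ioc 0 x, (if ¬ n.Prime then Λ n else 0) ≤ 2 * √x * L := by
    have h4 := Chebyshev.psi_sub_theta_le (x := x) (by exact_mod_cast hx)
    rw [Chebyshev.psi_sub_theta_eq_sum_not_prime, Nat.floor_natCast, sum_filter] at h4
    exact h4.trans (mul_le_mul_of_nonneg_left (by linarith) (by positivity))
  have h4 : ∑ n ∈ Ioc 0 x, (if n ≤ N then ind a p n else 0) ≤ N / p + 1 := by
    have h5 := per_nonneg hp.pos (ind a p) (fun n => ind_congr a (Nat.mod_modEq n p).symm)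
      (ind_nonneg a p) 0 N
    have h6 := sum_ind_le hp ha 1
    simp only [mul_one] at h6
    rw [← sum_filter]
    refine (sum_le_sum_of_subset_of_nonneg (fun n hn => ?_) fun n _ _ => ind_nonneg a p n).trans
      (h5.trans (mul_le_of_le_one_right (by positivity) h6))
    simp only [mem_filter, mem_Ioc] at hn ⊢
    exact ⟨hn.1.1, hn.2⟩
  have h5 : (((Ioc N x).filter (fun q : ℕ => q.Prime ∧ (p : ℤ) ∣ q - a)).card : ℝ) =
      ∑ n ∈ Ioc 0 x, if N < n ∧ n.Prime ∧ (p : ℤ) ∣ n - a then 1 else 0 := by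
    rw [← sum_filter, sum_const, nsmul_eq_mul, mul_one]
    congr 2
    ext n
    simp only [mem_filter, mem_Ioc]
    constructor
    · rintro ⟨h1, h2⟩; exact ⟨⟨by omega, h1.2⟩, h1.1, h2⟩
    · rintro ⟨h1, h2, h3⟩; exact ⟨⟨h2, h1.2⟩, h3⟩
  have h6 : ∀ n ∈ Ioc 0 x, (Λ n - if p ∣ n then L else 0) / p + Λ n * w a p n ≤
      L * (if n ≤ N then ind a p n else 0) + (if ¬ n.Prime then Λ n else 0) +
        L * if N < n ∧ n.Prime ∧ (p : ℤ) ∣ n - a then 1 else 0 := by
    intro n hn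
    have e1 := hΛ n hn
    have e2 : 0 ≤ Λ n := vonMangoldt_nonneg
    have e3 : (Λ n - if p ∣ n then L else 0) / p + Λ n * w a p n ≤ Λ n * ind a p n := by
      unfold w
      split_ifs
      · have : (Λ n - L) / p ≤ 0 := div_nonpos_of_nonpos_of_nonneg (by linarith) (by linarith)
        linarith
      · have : Λ n / p ≤ Λ n / (p - 1) := by gcongr <;> linarith
        rw [sub_zero, mul_sub, mul_one_div]; linarith
    refine e3.trans ?_
    unfold ind
    by_cases c1 : (p : ℤ) ∣ n - a <;> by_cases c2 : n ≤ N <;> by_cases c3 : n.Prime <;>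
      simp [c1, c2, c3, not_le.1, e1, e2, hL0, not_lt.2]
  have h7 := sum_le_sum h6
  rw [sum_add_distrib, sum_add_distrib, sum_add_distrib, ← sum_div, sum_sub_distrib, ← mul_sum,
    ← mul_sum, ← h5] at h7
  have h8 : (x * log 2 - log (x + 1) - x / p * L) / p ≤
      (∑ n ∈ Ioc 0 x, Λ n - ∑ n ∈ Ioc 0 x, if p ∣ n then L else 0) / p := by
    gcongr
  linarith [mul_le_mul_of_nonneg_left h4 hL0]

theorem Par.xlo (h : Par a N P A B L) : (P : ℝ) * N / 3 ≤ (P * (N / 2) : ℕ) := by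
  have hN : 1000 ≤ N := by exact_mod_cast h.P1.trans h.N1
  have h1 : N ≤ 3 * (N / 2) := by omega
  have h2 : (N : ℝ) ≤ 3 * (N / 2 : ℕ) := by exact_mod_cast h1
  have := h.P1
  push_cast; nlinarith

theorem Par.xup (h : Par a N P A B L) : ((P * (N / 2) : ℕ) : ℝ) ≤ P * N / 2 := by
  have h2 : ((N / 2 : ℕ) : ℝ) ≤ N / 2 := by exact_mod_cast Nat.cast_div_le (α := ℝ)
  have := h.P1
  push_cast; nlinarith

theorem Par.xlog (h : Par a N P A B L) :
    1 ≤ P * (N / 2) ∧ 1 + log ((P * (N / 2) : ℕ) + 1) ≤ L ∧ 1 + log (P * (N / 2) : ℕ) ≤ L := by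
  have h1 := h.xlo
  have h2 := h.xup
  have hPN : (1000 : ℝ) * 1000 ≤ P * N := by nlinarith [h.P1, h.N1]
  generalize P * (N / 2) = x at *
  have hx3 : (1 : ℝ) ≤ x := by linarith
  have hl1 : log (x + 1) ≤ log (N * P) := log_le_log (by positivity) (by linarith)
  have hl2 : log x ≤ log (x + 1) := log_le_log (by positivity) (by linarith)
  exact ⟨by exact_mod_cast hx3, by linarith [h.Llo], by linarith [h.Llo]⟩

theorem Par.Lpow (h : Par a N P A B L) {k : ℕ} (hk : k ≤ 14) : L ^ k ≤ P / 10 ^ 21 := by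
  rw [le_div_iff₀ (by norm_num)]
  linarith [pow_le_pow_right₀ h.L1 hk, h.LP]

theorem first_one (h : Par a N P A B L) {p : ℕ} (h1 : p.Prime) (ha : ¬ (p : ℤ) ∣ a) (h2 : P < p)
    (h3 : p ≤ 4 * P) : (3 : ℝ) * N / 100 + ∑ n ∈ Ioc 0 (P * (N / 2)), Λ n * w a p n ≤
      L * ((Ioc N (P * (N / 2))).filter (fun q : ℕ => q.Prime ∧ (p : ℤ) ∣ q - a)).card := by
  have hP := h.P1
  have hL := h.L1
  have hN := h.N1
  have hx1 := h.xlo
  have hx2 := h.xup
  obtain ⟨hx4, hl1, hl3⟩ := h.xlog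
  have h4 := one_modulus (N := N) h1 ha hx4 hl3
  generalize P * (N / 2) = x at *
  have h2' : (P : ℝ) ≤ p := by exact_mod_cast h2.le
  have h3' : (p : ℝ) ≤ 4 * P := by exact_mod_cast h3
  have h5 := h.Lpow (k := 1) (by norm_num)
  rw [pow_one] at h5
  have h6 : L / p ≤ 1 / 1000 := by rw [div_le_iff₀ (by linarith)]; linarith
  have h7 : (x : ℝ) / p * L ≤ x / 1000 := by
    calc _ = x * (L / p) := by ring
      _ ≤ x * (1 / 1000) := by gcongr
      _ = _ := by ring
  have hPN : (P : ℝ) * 1000 ≤ P * N := by gcongr; linarith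
  have h8 : log (x + 1) ≤ x / 1000 := by linarith
  have h9 : (N : ℝ) / 20 ≤ (x * log 2 - log (x + 1) - x / p * L) / p := by
    rw [le_div_iff₀ (by linarith)]
    have e1 : (x : ℝ) * 0.69 ≤ x * log 2 := by gcongr; linarith [log_two_gt_d9]
    have e2 : (N : ℝ) / 20 * p ≤ N / 20 * (4 * P) := by gcongr
    linarith
  have h10 : L * (N / p + 1) ≤ N / 100 := by
    calc _ = N * (L / p) + L := by ring
      _ ≤ N * (1 / 1000) + N / 1000 := by gcongr; linarith
      _ ≤ _ := by linarith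
  have h11 : 2 * √x * L ≤ N / 100 := by
    refine abs_le_of_sq_le_sq' ?_ (by positivity) |>.2
    have e1 := h.Lpow (k := 2) (by norm_num)
    have e2 : (P : ℝ) ^ 2 ≤ N := (pow_le_pow_right₀ (by linarith) (by norm_num)).trans h.NP
    rw [mul_pow, mul_pow, sq_sqrt (by positivity)]
    calc _ ≤ 2 ^ 2 * ((P : ℝ) * N / 2) * (P / 10 ^ 21) := by gcongr
      _ = 2 / 10 ^ 21 * ((P : ℝ) ^ 2 * N) := by ring
      _ ≤ 1 / 10 ^ 4 * ((N : ℝ) * N) := by gcongr ?_ * (?_ * _); norm_num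
      _ = _ := by ring
  linarith

theorem cnt_le (h : Par a N P A B L) {i : ℕ} (hi : i ∈ Ico A B) [DecidablePred (Rep a N i)] :
    ((Ioc N (P * (N / 2))).filter (fun q : ℕ => q.Prime ∧ (pr i : ℤ) ∣ q - a)).card ≤
      ((range (N + 1)).filter (Rep a N i)).card := by
  have hP' : 1000 ≤ P := by exact_mod_cast h.P1
  refine le_trans (card_le_card fun q hq => ?_) (card_image_le (f := fun n => (Lf a i n).toNat))
  simp only [mem_filter, mem_Ioc] at hq
  obtain ⟨⟨e1, e2⟩, e3, k, e4⟩ := hq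
  obtain ⟨e5, e6⟩ := h.mem i hi
  have e7 := h.aP
  have e8 : i + 2 ≤ pr i := Nat.add_two_le_nth_prime i
  have e11 : 1000 * P ≤ N := by
    refine le_trans ?_ h.PN
    calc 1000 * P ≤ P * P := Nat.mul_le_mul_right _ hP'
      _ = P ^ 2 := by ring
      _ ≤ _ := Nat.pow_le_pow_right (by omega) (by norm_num)
  have e9 : 0 < k := (pos_iff_pos_of_mul_pos (by omega : (0 : ℤ) < pr i * k)).1 (by omega)
  have e10 : k ≤ (N / 2 : ℕ) := by
    by_contra c
    have c1 : (P + 1 : ℤ) * ((N / 2 : ℕ) + 1) ≤ pr i * k :=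
      mul_le_mul (by omega) (by omega) (by positivity) (by positivity)
    have c2 : (q : ℤ) ≤ P * (N / 2 : ℕ) := by exact_mod_cast e2
    have c3 : (0 : ℤ) ≤ (N / 2 : ℕ) := by positivity
    have c4 : -(P : ℤ) ≤ a := by omega
    nlinarith
  obtain ⟨k, rfl⟩ := Int.eq_ofNat_of_zero_le e9.le
  have e12 : Lf a i (k + i + 1) = q := by unfold Lf; push_cast; linear_combination -e4
  refine mem_image.2 ⟨k + i + 1, mem_filter.2 ⟨mem_range.2 (by omega), ?_⟩, by simp [e12]⟩
  unfold Rep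
  rw [e12]
  exact ⟨by simpa using e3, by exact_mod_cast e1⟩

theorem err_le (h : Par a N P A B L) {x : ℕ} (hx2 : (x : ℝ) ≤ P * N / 2) (hl3 : 1 + log x ≤ L) :
    400 * (1 + log x) ^ 8 * x ^ 2 / P ≤ (((B - A : ℕ) : ℝ) * N / 100) ^ 2 ∧
      36 * (P : ℝ) ^ 6 * (1 + log x) ≤ ((B - A : ℕ) : ℝ) * N / 100 := by
  have hP := h.P1
  have hL := h.L1
  have hML := h.ML
  have hl4 : 0 ≤ log x := log_natCast_nonneg x
  have hm := h.many
  generalize ((B - A : ℕ) : ℝ) = M at *
  constructor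
  · have h1 : (P : ℝ) ^ 2 ≤ (M * L) ^ 2 := by gcongr
    have h2 : 10 ^ 6 * L ^ 8 * P ≤ M ^ 2 := by
      refine le_of_mul_le_mul_right ?_ (by positivity : 0 < L ^ 2)
      have := h.Lpow (k := 10) (by norm_num)
      calc _ = 10 ^ 6 * L ^ 10 * P := by ring
        _ ≤ P * P := by gcongr; linarith
        _ = P ^ 2 := by ring
        _ ≤ _ := h1.trans_eq (by ring)
    calc _ ≤ 400 * L ^ 8 * (P * N / 2) ^ 2 / P := by gcongr
      _ = 10 ^ 6 * L ^ 8 * P * (N / 100) ^ 2 := by field_simp; ring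
      _ ≤ M ^ 2 * (N / 100) ^ 2 := by gcongr
      _ = _ := by ring
  · have h1 : L ≤ L ^ 13 := le_self_pow₀ hL (by norm_num)
    have h2 := h.NP
    calc _ ≤ 36 * N * L := by gcongr
      _ = N * (36 * L) := by ring
      _ ≤ N * (M / 100) := by gcongr; linarith
      _ = _ := by ring

theorem first (ha : a ≠ 0) (h : Par a N P A B L) :
    ((B - A : ℕ) : ℝ) * N / (100 * L) ≤ ∑ n ∈ range (N + 1), (rr a N A B n : ℝ) := by
  classical
  have hL := h.L1
  have hP' : 1000 ≤ P := by exact_mod_cast h.P1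
  obtain ⟨hx4, -, hl3⟩ := h.xlog
  set S := (Ico A B).image pr with hS
  have hSc : S.card = B - A := by rw [card_image_of_injective _ pr_mono.injective, Nat.card_Ico]
  have hSm : ∀ p ∈ S, p.Prime ∧ P < p ∧ p ≤ 4 * P := fun p hp => by
    obtain ⟨i, hi, rfl⟩ := mem_image.1 hp
    exact ⟨pr_prime i, h.mem i hi⟩
  have hG : Good a P S := fun p hp => ⟨(hSm p hp).1, (hSm p hp).2.1, fun hd => by
    have h1 := Nat.le_of_dvd (Int.natAbs_pos.2 ha) (Int.natCast_dvd.1 hd)
    have := h.aP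
    have := (hSm p hp).2.1
    omega⟩
  have hS4 : S.card ≤ 4 * P := by
    refine (card_le_card (t := Ioc 0 (4 * P)) fun p hp => ?_).trans (by simp)
    exact mem_Ioc.2 ⟨(hSm p hp).1.pos, (hSm p hp).2.2⟩
  obtain ⟨E, hE1, hE2⟩ := disp hG (by omega) hS4 hx4
  obtain ⟨hE3, hE4⟩ := err_le h h.xup hl3
  have h2 := sum_le_sum fun p (hp : p ∈ S) =>
    first_one h (hSm p hp).1 (hG p hp).2.2 (hSm p hp).2.1 (hSm p hp).2.2
  rw [sum_add_distrib, sum_const, nsmul_eq_mul, hSc, sum_comm, ← mul_sum] at h2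
  simp only [← mul_sum] at h2
  have h3 : ∑ p ∈ S, (((Ioc N (P * (N / 2))).filter
      (fun q : ℕ => q.Prime ∧ (p : ℤ) ∣ q - a)).card : ℝ) ≤
      ∑ n ∈ range (N + 1), (rr a N A B n : ℝ) := by
    rw [hS, sum_image fun _ _ _ _ e => pr_mono.injective e]
    simp only [rr, card_filter (fun i => Rep a N i _)]
    push_cast
    rw [sum_comm]
    refine sum_le_sum fun i hi => ?_
    rw [← sum_filter, sum_const, nsmul_eq_mul, mul_one]
    exact Nat.cast_le.2 (cnt_le h hi)
  rw [div_le_iff₀ (by positivity)]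
  have h4 := mul_le_mul_of_nonneg_left h3 (by linarith : 0 ≤ L)
  have h5 := (abs_le.1 (hE2.trans hE4)).1
  have h6 := (abs_le_of_sq_le_sq' (hE1.trans hE3) (by positivity)).1
  unfold W at h5
  linarith

end Pool.Agent.P.MP_0993da_nt
end

-- part Pool.Agent.P.MP_0993da_nt.Main
section

/-!
Choice of the parameters and the positive proportion theorem.
-/

namespace Pool.Agent.P.MP_0993da_nt

open Finset Real Filter Pool.Agent.Lib.Sieve

theorem exists_par (a : ℤ) : ∀ᶠ N : ℕ in atTop, ∃ P A B L, Par a N P A B L ∧ N ≤ 64 * P ^ 6 := by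
  have h1 : ∀ᶠ P : ℕ in atTop, 10 ^ 21 * (14 * log P) ^ 14 ≤ P := by
    have h2 := (isLittleO_pow_log_id_atTop (n := 14)).bound
      (by positivity : (0 : ℝ) < 1 / (10 ^ 21 * 14 ^ 14))
    filter_upwards [tendsto_natCast_atTop_atTop.eventually h2] with P hP
    rw [id, Real.norm_natCast, one_div, inv_mul_eq_div, le_div_iff₀ (by positivity)] at hP
    have h3 := mul_le_mul_of_nonneg_right (le_abs_self (log P ^ 14))
      (by positivity : (0 : ℝ) ≤ 10 ^ 21 * 14 ^ 14)
    calc _ = log P ^ 14 * (10 ^ 21 * 14 ^ 14) := by ring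
      _ ≤ _ := h3.trans hP
  have h2 : Tendsto (fun N : ℕ => Nat.nthRoot 6 N) atTop atTop :=
    tendsto_atTop.2 fun b => (eventually_ge_atTop (b ^ 6)).mono fun N hN =>
      (Nat.le_nthRoot_iff (by norm_num)).2 hN
  filter_upwards [h2.eventually (h1.and ((eventually_ge_atTop (2 ^ 240)).and
    (eventually_ge_atTop a.natAbs)))] with N hN
  obtain ⟨P, ⟨e1, e2, e3⟩, e4, e5⟩ : ∃ P : ℕ, (10 ^ 21 * (14 * log P) ^ 14 ≤ P ∧ 2 ^ 240 ≤ P ∧
      a.natAbs ≤ P) ∧ P ^ 6 ≤ N ∧ N < (P + 1) ^ 6 :=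
    ⟨_, hN, Nat.pow_nthRoot_le_iff.2 (Or.inl (by norm_num)),
      Nat.lt_pow_nthRoot_add_one (by norm_num) N⟩
  clear hN h1 h2
  have hP : 1000 ≤ P := le_trans (by norm_num) e2
  have hP' : (1000 : ℝ) ≤ P := by exact_mod_cast hP
  have e6 : N ≤ 64 * P ^ 6 := by
    calc N ≤ (2 * P) ^ 6 := e5.le.trans (Nat.pow_le_pow_left (by omega) _)
      _ = _ := by ring
  have e7 : P ≤ N := (Nat.le_self_pow (by norm_num) P).trans e4
  have hN' : (P : ℝ) ≤ N := by exact_mod_cast e7
  set L := 1 + log ((N : ℝ) * P) with hL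
  have hl : 1 ≤ log P := one_le_log (by omega)
  have hNP : (P : ℝ) * 1000 ≤ N * P := by nlinarith
  have hL1 : log (4 * P + 1) ≤ L := by
    have := log_le_log (by positivity) (by linarith : (4 * P + 1 : ℝ) ≤ N * P)
    linarith
  have hL0 : 0 ≤ log ((N : ℝ) * P) := log_nonneg (by linarith)
  have hL2 : L ≤ 14 * log P := by
    have e8 : N * P ≤ P ^ 8 := by
      calc N * P ≤ 64 * P ^ 6 * P := Nat.mul_le_mul_right _ e6
        _ ≤ P * P ^ 6 * P := by gcongr; omega
        _ = _ := by ring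
    have := log_le_log (by linarith) (by exact_mod_cast e8 : (N : ℝ) * P ≤ (P : ℝ) ^ 8)
    rw [log_pow] at this
    push_cast at this
    linarith
  have hL3 : 10 ^ 21 * L ^ 14 ≤ P := le_trans (by gcongr) e1
  refine ⟨P, Nat.count Nat.Prime (P + 1), Nat.count Nat.Prime (4 * P + 1), L,
    ⟨e2, e3, e4, hL3, hL2, le_rfl, fun i hi => ?_, ?_⟩, e6⟩
  · rw [mem_Ico] at hi
    exact ⟨(Nat.count_le_iff_le_nth Nat.infinite_setOfPred_prime).1 hi.1,
      Nat.lt_succ_iff.1 (Nat.nth_lt_of_lt_count hi.2)⟩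
  set F := (Ioc P (4 * P)).filter Nat.Prime with hF
  have f1 : F.card ≤ Nat.count Nat.Prime (4 * P + 1) - Nat.count Nat.Prime (P + 1) := by
    rw [← Nat.card_Ico]
    refine le_trans (card_le_card fun p hp => ?_) (card_image_le (f := pr))
    simp only [hF, mem_filter, mem_Ioc] at hp
    refine mem_image.2 ⟨Nat.count Nat.Prime p, mem_Ico.2 ⟨Nat.count_monotone _ hp.1.1, ?_⟩,
      Nat.nth_count hp.2⟩
    rw [Nat.lt_nth_iff_count_lt Nat.infinite_setOfPred_prime, Nat.nth_count hp.2]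
    omega
  have f2 : Chebyshev.theta (4 * P : ℕ) ≤ Chebyshev.theta P + F.card * L := by
    rw [Chebyshev.theta, Chebyshev.theta, Nat.floor_natCast, Nat.floor_natCast, sum_filter,
      sum_filter, ← sum_Ioc_consecutive _ (Nat.zero_le P) (by omega : P ≤ 4 * P),
      ← sum_filter Nat.Prime (s := Ioc P (4 * P)), ← nsmul_eq_mul]
    refine add_le_add le_rfl (sum_le_card_nsmul _ _ _ fun p hp => le_trans ?_ hL1)
    simp only [mem_filter, mem_Ioc] at hp
    have : (p : ℝ) ≤ (4 * P : ℕ) := by exact_mod_cast hp.1.2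
    exact log_le_log (by exact_mod_cast hp.2.pos) (by push_cast at this; linarith)
  have f3 := Chebyshev.theta_ge (4 * P)
  have f4 := Chebyshev.theta_le_log4_mul_x (x := P) (by positivity)
  have f5 : log 4 = 2 * log 2 := by
    rw [show (4 : ℝ) = 2 ^ 2 by norm_num, log_pow]; norm_num
  have f6 : L ≤ L ^ 14 := le_self_pow₀ (by linarith) (by norm_num)
  have f7 : L ^ 2 ≤ L ^ 14 := pow_le_pow_right₀ (by linarith) (by norm_num)
  have f8 : 2 * √(4 * P : ℕ) * log (4 * P : ℕ) ≤ P / 10 := by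
    have g1 : log (4 * P : ℕ) ≤ L :=
      le_trans (log_le_log (by positivity) (by push_cast; linarith)) hL1
    refine le_trans (mul_le_mul_of_nonneg_left g1 (by positivity)) ?_
    refine (abs_le_of_sq_le_sq' ?_ (by positivity)).2
    rw [mul_pow, mul_pow, sq_sqrt (by positivity)]
    push_cast
    calc _ = P * (16 * L ^ 2) := by ring
      _ ≤ P * (P / 100) := by gcongr; linarith
      _ = _ := by ring
  have f9 : (P : ℝ) * 0.69 ≤ P * log 2 := by gcongr; linarith [log_two_gt_d9]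
  have f10 : (F.card : ℝ) * L ≤
      (Nat.count Nat.Prime (4 * P + 1) - Nat.count Nat.Prime (P + 1) : ℕ) * L := by
    gcongr
  rw [f5] at f4
  push_cast at f3 f8 f2
  linarith

variable {a : ℤ} {N P A B : ℕ} {L : ℝ}

theorem many_large (ha : a ≠ 0) (h : Par a N P A B L) (hN : N ≤ 64 * P ^ 6) :
    1 / (40000 * C4) * N ≤ ((range (N + 1)).filter (fun n => N ≤ rr a N A B n ^ 7)).card := by
  classical
  have hP := h.P1
  have hL := h.L1
  have hN1 := h.N1
  have hC := C4_pos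
  have h1 := first ha h
  have h2 := second h
  have hm := h.many
  have hML := h.ML
  generalize ((B - A : ℕ) : ℝ) = M at *
  have hM : 0 < M := lt_of_lt_of_le (by positivity) hML
  set R := (range (N + 1)).filter (fun n => N ≤ rr a N A B n ^ 7) with hR
  have h3 : ∑ n ∈ (range (N + 1)).filter (fun n => ¬ N ≤ rr a N A B n ^ 7), (rr a N A B n : ℝ) ≤
      M * N / (200 * L) := by
    refine (sum_le_card_nsmul _ _ (M / (400 * L)) fun n hn => ?_).trans ?_
    · have e1 : (rr a N A B n : ℝ) ^ 7 ≤ 64 * P ^ 6 := by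
        exact_mod_cast (not_le.1 (mem_filter.1 hn).2).le.trans hN
      have e2 : P / (400 * L ^ 2) ≤ M / (400 * L) := by
        calc _ ≤ M * L / (400 * L ^ 2) := by gcongr
          _ = _ := by field_simp
      refine le_trans (le_of_pow_le_pow_left₀ (n := 7) (by norm_num) (by positivity)
        (e1.trans ?_)) e2
      rw [div_pow, le_div_iff₀ (by positivity)]
      calc _ = 64 * 400 ^ 7 * L ^ 14 * P ^ 6 := by ring
        _ ≤ 10 ^ 21 * L ^ 14 * P ^ 6 := by gcongr; norm_num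
        _ ≤ P * P ^ 6 := by gcongr; exact h.LP
        _ = _ := by ring
    · have e1 : ((((range (N + 1)).filter (fun n => ¬ N ≤ rr a N A B n ^ 7)).card : ℕ) : ℝ) ≤
          (N + 1 : ℕ) := by exact_mod_cast (card_filter_le _ _).trans (card_range _).le
      rw [nsmul_eq_mul]
      push_cast at e1
      calc _ ≤ (2 * N) * (M / (400 * L)) := by gcongr; linarith
        _ = _ := by field_simp; ring
  rw [← sum_filter_add_sum_filter_not _ (fun n => N ≤ rr a N A B n ^ 7)] at h1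
  have h4 : M * N / (200 * L) ≤ ∑ n ∈ R, (rr a N A B n : ℝ) := by
    have : M * N / (100 * L) = M * N / (200 * L) + M * N / (200 * L) := by field_simp; ring
    linarith
  have h5 : (M * N / (200 * L)) ^ 2 ≤ R.card * (C4 * (M ^ 2 * N / L ^ 2)) := by
    refine (pow_le_pow_left₀ (by positivity) h4 2).trans (sq_sum_le_card_mul_sum_sq.trans ?_)
    exact mul_le_mul_of_nonneg_left ((sum_le_sum_of_subset_of_nonneg (filter_subset _ _)
      fun _ _ _ => by positivity).trans h2) (by positivity)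
  have hN0 : (0 : ℝ) < N := by linarith
  refine le_of_mul_le_mul_right (le_trans (le_of_eq ?_) h5) (by positivity)
  field_simp
  ring

theorem rr_le (h : Par a N P A B L) (n : ℕ) : rr a N A B n ≤ ((Ico 1 n).filter
    (fun k : ℕ => ((k : ℤ) * Nat.nth Nat.Prime (n - k - 1) + a).toNat.Prime)).card := by
  classical
  have hN : P ≤ N := by exact_mod_cast h.N1
  have ha := h.aP
  have key : ∀ i, Rep a N i n → i + 1 < n := fun i hi => by
    by_contra c
    have h1 := hi.2
    have h2 : (pr i : ℤ) * n ≤ pr i * (i + 1) := mul_le_mul_of_nonneg_left (by omega) (by positivity)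
    unfold Lf at h1
    omega
  unfold rr
  refine card_le_card_of_injOn (fun i => n - i - 1) (fun i hi => ?_) fun i hi i' hi' e => ?_
  · have h1 := (mem_filter.1 hi).2
    have h2 := key i h1
    refine mem_filter.2 ⟨mem_Ico.2 (by simp only; omega), ?_⟩
    have e1 : n - (n - i - 1) - 1 = i := by omega
    have e2 : ((n - i - 1 : ℕ) : ℤ) = n - i - 1 := by omega
    have e3 : ((n : ℤ) - i - 1) * pr i + a = Lf a i n := by unfold Lf; ring
    simp only [e1, e2]
    exact e3 ▸ h1.1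
  · have h1 := key i (mem_filter.1 hi).2
    have h2 := key i' (mem_filter.1 hi').2
    simp only at e
    omega

theorem main (a : ℤ) (ha : a ≠ 0) : ∃ c : ℝ, 0 < c ∧ ∀ᶠ N : ℕ in atTop,
    c * N ≤ ((Icc 1 N).filter (fun n : ℕ => N ≤ ((Ico 1 n).filter
      (fun k : ℕ => ((k : ℤ) * Nat.nth Nat.Prime (n - k - 1) + a).toNat.Prime)).card ^ 7)).card := by
  refine ⟨1 / (40000 * C4), by have := C4_pos; positivity, ?_⟩
  filter_upwards [exists_par a, eventually_ge_atTop 1] with N ⟨P, A, B, L, h, hN⟩ h1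
  refine (many_large ha h hN).trans (Nat.cast_le.2 (card_le_card fun n hn => ?_))
  rw [mem_filter, mem_range] at hn
  have h2 := hn.2.trans (Nat.pow_le_pow_left (rr_le h n) 7)
  refine mem_filter.2 ⟨mem_Icc.2 ⟨?_, by omega⟩, h2⟩
  rcases Nat.eq_zero_or_pos n with rfl | h3
  · simp at h2; omega
  · exact h3

end Pool.Agent.P.MP_0993da_nt
end
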